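import Pool.Agent.U393.IT.Main

/-!
The Kodaira dimension of the images of a product.
-/

set_option autoImplicit false
set_option linter.overlappingInstances false
set_option linter.unusedSectionVars false

open FF Pool.Agent.W602.GT
open Pool.Agent.Y174 (PairSec PairKod resPl)
open Pool.Agent.U192.PE (SecU)
open Pool.Agent.U393.IT

namespace Pool.Agent.U393.SA

section

variable {L : Type} [Field L] [Algebra ℂ L] {U T : IntermediateField ℂ L}
  [Algebra.EssFiniteType ℂ U] [Algebra.EssFiniteType ℂ T] {K : Type} [Field K] [Algebra ℂ K]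
  [Algebra K L] [IsScalarTower ℂ K L] [FiniteDimensional K L]

/-- the easy direction -/
theorem kappa_down {d n h : ℕ} (hsup : U ⊔ T = ⊤) (hU : Algebra.trdeg ℂ U = d)
    (hT : Algebra.trdeg ℂ T = n) (hL : Algebra.trdeg ℂ L = (d + n : ℕ))
    (hk : KodGe ℂ K (d + n) (fun _ => False) h) : KodGe ℂ T n (fun _ => False) (h - d) := by
  have hessL : Algebra.EssFiniteType ℂ L := Pool.Agent.U192.PE.ess_prod U T hsup
  have hessK : Algebra.EssFiniteType ℂ K := Pool.Agent.TH466.QG.ess_below (K := L)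
  have hK : Algebra.trdeg ℂ K = (d + n : ℕ) := Pool.Agent.Y184.NT.trdeg_below (K := L) hL
  have hUL : Algebra.trdeg U L = n := Pool.Agent.Y174.trdeg_LK hU hL
  have h1 : PairKod ℂ L (d + n) (fun _ => 0) h := up (M := K) (L := L) hK (kd_iff.1 hk)
  have h2 : PairKod U L n (fun _ => 0) (h - d) := rest (M := U) (L := L) hU hUL h1
  exact kd_iff.2 (desc hsup hU hT hL h2)

/-- **The Kodaira dimension of `W`.** -/
theorem kappa_up {d n h m0 κ : ℕ} (hm0 : 1 ≤ m0) (hsup : U ⊔ T = ⊤) (hU : Algebra.trdeg ℂ U = d)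
    (hT : Algebra.trdeg ℂ T = n) (hL : Algebra.trdeg ℂ L = (d + n : ℕ))
    (hKU : IntermediateField.adjoin K (U : Set L) = ⊤) (X : Fin κ → Finset U)
    (hX : IntermediateField.adjoin ℂ (⋃ i, (X i : Set U)) = ⊤)
    {α : Fin (d + 1) → (Fin d → Derivation ℂ U U) → U}
    (hα : ∀ j, SecU K d m0 X {1} (α j)) {G0 : Fin d → Derivation ℂ U U} (hG0 : α 0 G0 ≠ 0)
    (hind : AlgebraicIndependent ℂ fun j : Fin d => α j.succ G0 / α 0 G0)
    (hk : KodGe ℂ T n (fun _ => False) h) : KodGe ℂ K (d + n) (fun _ => False) (d + h) := by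
  have h1 := Pool.Agent.U192.PE.kod_prod (K := K) U T hsup hU hT hL hKU X hX
    (δ := fun _ => 0) (δT := fun _ => 0) (fun _ => le_refl _) (fun _ _ => zero_le_one)
    (Pool.Agent.U393.UT.ge_zero U T) hm0 hα hG0 hind (kd_iff.1 hk)
  exact kd_iff.2 h1

end

end Pool.Agent.U393.SA
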