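import Pool.Agent.U393.SA.Core
import Pool.Agent.U192.PT.Alg

/-!
Functions whose norms give regular tensors are constant on the members of a family of almost homogeneous
varieties: the theorem.
-/

set_option autoImplicit false
set_option linter.overlappingInstances false
set_option linter.unusedSectionVars false

open FF Pool.Agent.W602.GT Pool.Agent.W603.LV Pool.Agent.W619.PQ Pool.Agent.Y172
open Pool.Agent.U192.TD (FP TT RegDown coeff_mem coeff_mem' eval_FP comm_aut)
open Pool.Agent.Y174 (resPl)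
open Pool.Agent.U192.PT (der_eq_of_alg)

namespace Pool.Agent.U393.SA

section

variable {K M R Ω Ω' : Type} [Field K] [Field M] [Field R] [Field Ω] [Field Ω'] [Algebra ℂ K]
  [Algebra ℂ M] [Algebra ℂ R] [Algebra M R] [IsScalarTower ℂ M R] [Algebra M Ω']
  [Algebra ℂ Ω] [Algebra ℂ Ω'] [Algebra K Ω] [Algebra K R] [Algebra K Ω'] [Algebra Ω Ω']
  [Algebra R Ω'] [IsScalarTower M R Ω'] [IsScalarTower ℂ M Ω']
  [IsScalarTower ℂ K Ω] [IsScalarTower ℂ K R] [IsScalarTower ℂ Ω Ω'] [IsScalarTower ℂ R Ω']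
  [IsScalarTower K Ω Ω'] [IsScalarTower K R Ω'] [FiniteDimensional K Ω] [IsGalois K Ω]
  [FiniteDimensional R Ω']
  [Fintype (Ω ≃ₐ[K] Ω)] [Algebra.EssFiniteType ℂ K] [Algebra.EssFiniteType ℂ R]

/-- the norm of a multiple -/
theorem FV_mul {d N m : ℕ} (x : Fin d → Ω) (u a : Ω) (B : Fin N → Derivation ℂ Ω' Ω') :
    FV K x (u * a) m B = MvPolynomial.C (∏ h : Ω ≃ₐ[K] Ω, algebraMap Ω Ω' (h u)) *
      FV K x a m B := by
  unfold FV
  rw [map_prod, ← Finset.prod_mul_distrib]
  refine Finset.prod_congr rfl fun h _ => ?_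
  rw [map_mul, map_mul, map_mul]
  ring

/-- **Functions whose norms give regular tensors** are algebraic over the base of the family. -/
theorem alg_of_reg {n d b r m : ℕ} (hn : Algebra.trdeg ℂ K = n) (hM : Algebra.trdeg ℂ M = b)
    (hR : Algebra.trdeg M R = (r + 1 : ℕ))
    {S : Set (Place M R)} {D : Fin (r + 1) → Derivation M R R} (hD : Homog S D)
    {x : Fin d → Ω} (hx : AlgebraicIndependent ℂ x) {a : Ω} (ha : a ≠ 0) {s : K} (hs0 : s ≠ 0)
    (hs : RegDown K n x a m s) {g : Ω}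
    (hg : ∀ c : ℂ, RegDown K n x ((g + algebraMap ℂ Ω c) * a) m s) :
    IsAlgebraic M (algebraMap Ω Ω' g) := by
  classical
  obtain ⟨t, ht⟩ := Pool.Agent.W636.PG.exists_basis ℂ M b hM
  have hM0 : CharZero M := charZero_of_injective_algebraMap (algebraMap ℂ M).injective
  obtain ⟨x0, hx0⟩ := Pool.Agent.W636.PG.exists_basis M R (r + 1) hR
  have hN : Algebra.trdeg ℂ R = (b + (r + 1) : ℕ) := by
    have h1 := _root_.trdeg_add_eq ℂ M (A := R)
    rw [hM, hR] at h1
    rw [← h1]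
    push_cast
    rfl
  have hxt := Pool.Agent.Y174.basis_append ht hx0
  obtain ⟨B, hB⟩ := Pool.Agent.W636.PG.exists_duals ℂ R (b + (r + 1)) _ hxt
  choose BΩ hBΩ using fun i => exists_lift (L := Ω') hN (frame B D i)
  have hspan : ∀ G : Derivation ℂ Ω' Ω', ∃ c : Fin (b + (r + 1)) → Ω', ∀ z,
      G z = ∑ j, c j * BΩ j z := by
    intro G
    obtain ⟨c, hc, -⟩ := span_frame (L := Ω') ht hx0 hB hD.ind (G.compAlgebraMap R)
    refine ⟨c, fun z => ?_⟩
    have h1 : G = ∑ j, c j • BΩ j := by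
      refine der_eq_of_alg (K := R) hN fun z => ?_
      rw [Pool.Agent.W308.PG.YLOC.der_sum_apply]
      have h2 := hc z
      change G (algebraMap R Ω' z) = _ at h2
      rw [h2]
      refine Finset.sum_congr rfl fun j _ => ?_
      change _ = c j * BΩ j (algebraMap R Ω' z)
      rw [hBΩ]
    conv_lhs => rw [h1]
    rw [Pool.Agent.W308.PG.YLOC.der_sum_apply]
    rfl
  have hq : FV K x a m BΩ ≠ 0 := FV_ne K hx ha hspan
  obtain ⟨e, he, c, hc⟩ := exists_top (Vert d b r) hq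
  have hsΩ : algebraMap K Ω' s ≠ 0 := by
    rwa [Ne, map_eq_zero]
  have hT := top_alg (M := M) (R := R) hn hN ht hx0 hB hD hBΩ hs he c
  obtain ⟨A, hA⟩ : ∃ A : Submodule ℂ Ω', ∀ z, z ∈ A ↔ IsAlgebraic M z :=
    ⟨Subalgebra.toSubmodule ((algebraicClosure M Ω').toSubalgebra.restrictScalars ℂ), fun z => by
      change z ∈ algebraicClosure M Ω' ↔ _
      rw [mem_algebraicClosure_iff]⟩
  obtain ⟨p, hp⟩ : ∃ p : Polynomial Ω', p =
    ∏ h : Ω ≃ₐ[K] Ω, (Polynomial.X + Polynomial.C (algebraMap Ω Ω' (h g))) := ⟨_, rfl⟩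
  have hval : ∀ c0 : ℂ, p.eval (algebraMap ℂ Ω' c0) =
      ∏ h : Ω ≃ₐ[K] Ω, algebraMap Ω Ω' (h (g + algebraMap ℂ Ω c0)) := by
    intro c0
    rw [hp, Polynomial.eval_prod]
    refine Finset.prod_congr rfl fun h _ => ?_
    rw [Polynomial.eval_add, Polynomial.eval_X, Polynomial.eval_C, map_add, map_add]
    have h1 : h (algebraMap ℂ Ω c0) = algebraMap ℂ Ω c0 := by
      rw [IsScalarTower.algebraMap_apply ℂ K Ω, h.commutes]
    rw [h1, ← IsScalarTower.algebraMap_apply ℂ Ω Ω', add_comm]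
  have hcoef : ∀ i, IsAlgebraic M (p.coeff i) := by
    intro i
    rw [← hA]
    refine coeff_mem' A p (fun c0 => ?_) i
    rw [hA]
    by_cases h0 : p.eval (algebraMap ℂ Ω' c0) = 0
    · rw [h0]
      exact isAlgebraic_zero
    rw [hval] at h0
    have h1 := FV_mul (K := K) (m := m) x (g + algebraMap ℂ Ω c0) a BΩ
    obtain ⟨h2, h3⟩ := top_C_mul (Vert d b r) (q := FV K x a m BΩ) h0 e
      (fun p => algebraMap ℂ Ω' (c p))
    rw [← h1] at h2 h3
    have h4 := top_alg (M := M) (R := R) hn hN ht hx0 hB hD hBΩ (hg c0) (by rw [h2]; exact he) c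
    rw [h3] at h4
    have h5 := h4.mul hT.inv
    rw [hval]
    rw [mul_left_comm, mul_inv_cancel_right₀ (mul_ne_zero hsΩ hc)] at h5
    exact h5
  have hmon : p.Monic := by
    rw [hp]
    exact Polynomial.monic_prod_of_monic _ _ fun h _ => Polynomial.monic_X_add_C _
  have hroot : p.eval (-(algebraMap Ω Ω' g)) = 0 := by
    rw [hp, Polynomial.eval_prod]
    refine Finset.prod_eq_zero (Finset.mem_univ (1 : Ω ≃ₐ[K] Ω)) ?_
    rw [Polynomial.eval_add, Polynomial.eval_X, Polynomial.eval_C]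
    exact neg_add_cancel _
  have hlift : p ∈ Polynomial.lifts (algebraMap (algebraicClosure M Ω') Ω') := by
    rw [Polynomial.lifts_iff_coeff_lifts]
    exact fun i => ⟨⟨p.coeff i, mem_algebraicClosure_iff.2 (hcoef i)⟩, rfl⟩
  obtain ⟨p0, hp0⟩ := (Polynomial.mem_lifts _).1 hlift
  have halg : IsAlgebraic (algebraicClosure M Ω') (-(algebraMap Ω Ω' g)) := by
    refine ⟨p0, ?_, ?_⟩
    · rintro rfl
      rw [Polynomial.map_zero] at hp0
      exact hmon.ne_zero hp0.symm
    · rw [← Polynomial.aeval_map_algebraMap Ω', hp0, Polynomial.coe_aeval_eq_eval]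
      exact hroot
  have h6 : IsAlgebraic M (-(algebraMap Ω Ω' g)) := halg.restrictScalars M
  have h7 := h6.neg
  rwa [neg_neg] at h7

end

end Pool.Agent.U393.SA
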