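import Pool.Agent.U192.TD.Main

/-!
# Families of almost homogeneous varieties

A family of varieties of dimension `r + 1` is given by the function field `M` of its base and the function
field `R` of its total space, an extension of `M` of transcendence degree `r + 1`: so `R` is the
function field of the generic member, a variety over `M`.
-/

set_option autoImplicit false
set_option linter.overlappingInstances false

open FF Pool.Agent.W602.GT

namespace Pool.Agent.U393.SA

/-- `S` is a set of prime divisors over the variety over `M` with the function field `R`, of dimension
`r + 1`, such that the functions without poles along the prime divisors in `S` are constant (algebraic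
over `M`), and `D 0, ..., D r` are rational vector fields which are linearly independent at a general
point and regular along all prime divisors in `S`. -/
structure Homog {M R : Type} [Field M] [Field R] [Algebra M R] (S : Set (Place M R)) {r : ℕ}
    (D : Fin (r + 1) → Derivation M R R) : Prop where
  div : ∀ P ∈ S, Divisorial (r + 1) P
  const : ∀ f : R, (∀ P ∈ S, P.Reg f) → IsAlgebraic M f
  ind : LinearIndependent R D
  reg : ∀ j, ∀ P ∈ S, DerReg P (D j)

/-- The variety over `M` with the function field `R`, of dimension `r + 1`, is almost homogeneous. For a
projective variety `F` one can take the set `S` of all prime divisors on (the normalisation of) `F`, and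
then the condition says that `F` has `r + 1` vector fields which are independent at a general point. -/
def AlmostHomogeneous (M R : Type) [Field M] [Field R] [Algebra M R] (r : ℕ) : Prop :=
  ∃ (S : Set (Place M R)) (D : Fin (r + 1) → Derivation M R R), Homog S D

/-- `C` is a class of families of almost homogeneous varieties which is closed under base change: if the
family with the function fields `M`, `R` belongs to `C`, then so does the one with the function fields
`M'`, `R'`, where `M'` is any extension of `M` and `R'` is generated by `R` and `M'` and has the same
transcendence degree over `M'` as `R` over `M`. -/
structure IsClass (C : ∀ (M R : Type) [Field M] [Field R] [Algebra M R], ℕ → Prop) : Prop where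
  homog : ∀ (M R : Type) [Field M] [Field R] [Algebra M R] (r : ℕ), C M R r →
    AlmostHomogeneous M R r
  base : ∀ (M R : Type) [Field M] [Field R] [Algebra M R] (r : ℕ), C M R r →
    ∀ (M' R' : Type) [Field M'] [Field R'] [Algebra M M'] [Algebra M' R'] [Algebra R R']
      [Algebra M R'] [IsScalarTower M M' R'] [IsScalarTower M R R'],
      IntermediateField.adjoin M' (Set.range (algebraMap R R')) = ⊤ →
      Algebra.trdeg M' R' = (r + 1 : ℕ) → C M' R' r

/-- `φ` is a dominant rational map of the total space of a family of the class `C`, with the function
fields `M` and `R`, to the variety with the function field `L`. The members of the family are mapped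
generically finitely to their images, and the functions in `U` are constant on the members. -/
structure Sweeps (C : ∀ (M R : Type) [Field M] [Field R] [Algebra M R], ℕ → Prop) {L : Type}
    [Field L] [Algebra ℂ L] (U : IntermediateField ℂ L) (M R : Type)
    [Field M] [Field R] [Algebra ℂ M] [Algebra ℂ R] [Algebra M R] (r : ℕ) (φ : L →ₐ[ℂ] R) :
    Prop where
  tower : IsScalarTower ℂ M R
  fgM : Algebra.EssFiniteType ℂ M
  fgR : Algebra.EssFiniteType ℂ R
  dim : Algebra.trdeg M R = (r + 1 : ℕ)
  mem : C M R r
  const : ∀ u ∈ U, ∃ c : M, algebraMap M R c = φ u
  finite : Algebra.IsAlgebraic (IntermediateField.adjoin M (Set.range φ)) R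

/-- The variety with the function field `L` is swept out by members of a family of the class `C`: it has a
covering family of subvarieties, the general one of which is dominated by a member of the family (of the
same positive dimension), such that the functions in `U` are constant on the members. -/
def SweptOut (C : ∀ (M R : Type) [Field M] [Field R] [Algebra M R], ℕ → Prop) {L : Type}
    [Field L] [Algebra ℂ L] (U : IntermediateField ℂ L) : Prop :=
  ∃ (M R : Type) (_ : Field M) (_ : Field R) (_ : Algebra ℂ M) (_ : Algebra ℂ R)
    (_ : Algebra M R) (r : ℕ) (φ : L →ₐ[ℂ] R), Sweeps C U M R r φ

end Pool.Agent.U393.SA
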