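import Pool.Agent.U393.SA.Span
import Pool.Agent.U393.SA.Defs

/-!
Functions whose norms give regular tensors are constant on the members of a family of almost homogeneous
varieties.
-/

set_option autoImplicit false
set_option linter.overlappingInstances false
set_option linter.unusedSectionVars false

open FF Pool.Agent.W602.GT Pool.Agent.W603.LV Pool.Agent.W619.PQ Pool.Agent.Y172
open Pool.Agent.U192.TD (FP TT RegDown coeff_mem coeff_mem' eval_FP comm_aut)
open Pool.Agent.Y174 (resPl)

namespace Pool.Agent.U393.SA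

section

variable {K M R Ω Ω' : Type} [Field K] [Field M] [Field R] [Field Ω] [Field Ω'] [Algebra ℂ K]
  [Algebra ℂ M] [Algebra ℂ R] [Algebra M R] [IsScalarTower ℂ M R] [Algebra M Ω']
  [Algebra ℂ Ω] [Algebra ℂ Ω'] [Algebra K Ω] [Algebra K R] [Algebra K Ω'] [Algebra Ω Ω']
  [Algebra R Ω'] [IsScalarTower M R Ω']
  [IsScalarTower ℂ K Ω] [IsScalarTower ℂ K R] [IsScalarTower ℂ Ω Ω'] [IsScalarTower ℂ R Ω']
  [IsScalarTower K Ω Ω'] [IsScalarTower K R Ω'] [FiniteDimensional K Ω] [IsGalois K Ω]
  [FiniteDimensional R Ω']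
  [Fintype (Ω ≃ₐ[K] Ω)] [Algebra.EssFiniteType ℂ K] [Algebra.EssFiniteType ℂ R]

/-- the vertical variables -/
def Vert (d b r : ℕ) (p : Fin d × Fin (b + (r + 1))) : Prop := b ≤ p.2.val

instance (d b r : ℕ) : DecidablePred (Vert d b r) := fun p => inferInstanceAs (Decidable (b ≤ p.2.val))

/-- **The top parts of the norms** are algebraic over the base of the family. -/
theorem top_alg {n d b r m : ℕ} (hn : Algebra.trdeg ℂ K = n) (hN : Algebra.trdeg ℂ R = (b + (r + 1) : ℕ))
    {t : Fin b → M} (ht : IsTranscendenceBasis ℂ t)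
    {x0 : Fin (r + 1) → R} (hx0 : IsTranscendenceBasis M x0)
    {B : Fin (b + (r + 1)) → Derivation ℂ R R}
    (hB : ∀ i j, B i (Fin.append (algebraMap M R ∘ t) x0 j) = if i = j then 1 else 0)
    {S : Set (Place M R)} {D : Fin (r + 1) → Derivation M R R} (hD : Homog S D)
    {BΩ : Fin (b + (r + 1)) → Derivation ℂ Ω' Ω'}
    (hBΩ : ∀ i z, BΩ i (algebraMap R Ω' z) = algebraMap R Ω' (frame B D i z))
    {x : Fin d → Ω} {a : Ω} {s : K} (hs : RegDown K n x a m s) {e : ℕ}
    (he : ∀ σ ∈ (FV K x a m BΩ).support, wt (Vert d b r) σ ≤ e)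
    (c : Fin d × Fin (b + (r + 1)) → ℂ) :
    IsAlgebraic M (algebraMap K Ω' s *
      top (Vert d b r) (FV K x a m BΩ) e (fun p => algebraMap ℂ Ω' (c p))) := by
  classical
  obtain ⟨T, hT⟩ : ∃ T, T = algebraMap K Ω' s *
      top (Vert d b r) (FV K x a m BΩ) e (fun p => algebraMap ℂ Ω' (c p)) := ⟨_, rfl⟩
  rw [← hT]
  have key : ∀ v ∈ S, ∃ w : R, v.Reg w ∧ algebraMap R Ω' w = T := by
    intro v hv
    obtain ⟨hdiv, z, E, -, -, -, hE, hreg⟩ := Pool.Agent.Y174.exists_frame_fib (k := ℂ) (L := M)
      (K := R) inferInstance hN ht.1 (hD.div v hv)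
    -- the regular horizontal fields
    have hw : ∀ k : Fin b, ∃ w : Fin (r + 1) → R, ∀ f, E (Fin.castAdd (r + 1) k) f =
        B (Fin.castAdd (r + 1) k) f + ∑ j, w j * D j f := by
      intro k
      obtain ⟨u, hu, hu0⟩ := span_frame (L := R) ht hx0 hB hD.ind
        (E (Fin.castAdd (r + 1) k) - B (Fin.castAdd (r + 1) k))
      refine ⟨fun j => u (Fin.natAdd b j), fun f => ?_⟩
      have h1 := hu f
      rw [Fin.sum_univ_add, Derivation.sub_apply] at h1
      have h2 : ∑ i : Fin b, u (Fin.castAdd (r + 1) i) *
          algebraMap R R (frame B D (Fin.castAdd (r + 1) i) f) = 0 := by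
        refine Finset.sum_eq_zero fun i _ => ?_
        rw [hu0, Derivation.sub_apply]
        have h3 := hE (Fin.castAdd (r + 1) k) (Fin.castAdd (r + 1) i)
        have h4 := hB (Fin.castAdd (r + 1) k) (Fin.castAdd (r + 1) i)
        rw [Fin.append_left] at h3 h4
        rw [show E (Fin.castAdd (r + 1) k) (algebraMap M R (t i)) = _ from h3,
          show B (Fin.castAdd (r + 1) k) (algebraMap M R (t i)) = _ from h4, sub_self, zero_mul]
      have h5 : ∑ j : Fin (r + 1), u (Fin.natAdd b j) *
          algebraMap R R (frame B D (Fin.natAdd b j) f) =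
          ∑ j, u (Fin.natAdd b j) * D j f := by
        refine Finset.sum_congr rfl fun j _ => ?_
        unfold frame
        rw [Fin.append_right]
        rfl
      rw [h2, zero_add, h5] at h1
      exact sub_eq_iff_eq_add'.1 h1
    choose w hw using hw
    have hmem : T ∈ Subalgebra.toSubmodule (RV Ω' (resPl ℂ v)) := by
      have h1 := top_mem (Vert d b r) (q := FV K x a m BΩ) (e := e)
        ((Subalgebra.toSubmodule (RV Ω' (resPl ℂ v))).comap
          (LinearMap.mulLeft ℂ (algebraMap K Ω' s))) he (fun p => algebraMap ℂ Ω' (c p))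
        (fun p => algebraMap R Ω' (Fin.addCases (motive := fun _ => R) (fun _ => 0)
          (fun j => ∑ k, algebraMap ℂ R (c (p.1, Fin.castAdd (r + 1) k)) * w k j) p.2))
        (fun ε hε => ?_)
      · rw [hT]
        exact h1
      · rw [Submodule.mem_comap]
        change algebraMap K Ω' s * _ ∈ RV Ω' (resPl ℂ v)
        rw [eval_FV]
        obtain ⟨gR, hgR⟩ : ∃ gR : Fin d × Fin (b + (r + 1)) → R, gR = fun p =>
          Fin.addCases (motive := fun _ => R)
            (fun k => algebraMap ℂ R (c (p.1, Fin.castAdd (r + 1) k)))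
            (fun j => (algebraMap ℂ R ε)⁻¹ * algebraMap ℂ R (c (p.1, Fin.natAdd b j)) +
              ∑ k, algebraMap ℂ R (c (p.1, Fin.castAdd (r + 1) k)) * w k j) p.2 := ⟨_, rfl⟩
        have hg : ∀ p : Fin d × Fin (b + (r + 1)), (if Vert d b r p then
            (algebraMap ℂ Ω' ε)⁻¹ * algebraMap ℂ Ω' (c p) +
            algebraMap R Ω' (Fin.addCases (motive := fun _ => R) (fun _ => 0)
              (fun j => ∑ k, algebraMap ℂ R (c (p.1, Fin.castAdd (r + 1) k)) * w k j) p.2)
            else algebraMap ℂ Ω' (c p)) = algebraMap R Ω' (gR p) := by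
          rintro ⟨i, p⟩
          rw [hgR]
          refine Fin.addCases (fun k => ?_) (fun j => ?_) p
          · rw [if_neg (by unfold Vert; rw [Fin.val_castAdd]; omega)]
            simp only [Fin.addCases_left]
            rw [← IsScalarTower.algebraMap_apply ℂ R Ω']
          · rw [if_pos (by unfold Vert; rw [Fin.val_natAdd]; omega)]
            simp only [Fin.addCases_right]
            rw [map_add, map_mul, map_inv₀, ← IsScalarTower.algebraMap_apply ℂ R Ω',
              ← IsScalarTower.algebraMap_apply ℂ R Ω']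
        simp only [hg]
        refine reg_V (R := R) hn hN hs hdiv (G := fun i => ∑ p, gR (i, p) • frame B D p)
          (fun i f hf => ?_) (fun i z => ?_)
        · have h2 : (∑ p, gR (i, p) • frame B D p) f =
              ∑ k : Fin b, algebraMap ℂ R (c (i, Fin.castAdd (r + 1) k)) *
                E (Fin.castAdd (r + 1) k) f +
              ∑ j : Fin (r + 1), ((algebraMap ℂ R ε)⁻¹ * algebraMap ℂ R (c (i, Fin.natAdd b j))) *
                D j f := by
            rw [Pool.Agent.W308.PG.YLOC.der_sum_apply]
            change ∑ p, gR (i, p) * frame B D p f = _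
            rw [Fin.sum_univ_add]
            have e1 : ∀ k f, frame B D (Fin.castAdd (r + 1) k) f =
                B (Fin.castAdd (r + 1) k) f := by
              intro k f
              unfold frame
              rw [Fin.append_left]
            have e2 : ∀ j f, frame B D (Fin.natAdd b j) f = D j f := by
              intro j f
              unfold frame
              rw [Fin.append_right]
              rfl
            simp only [e1, e2, hgR, Fin.addCases_left, Fin.addCases_right, hw]
            have a1 : ∑ j : Fin (r + 1), ((algebraMap ℂ R ε)⁻¹ *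
                algebraMap ℂ R (c (i, Fin.natAdd b j)) +
                ∑ k, algebraMap ℂ R (c (i, Fin.castAdd (r + 1) k)) * w k j) * D j f =
                ∑ j : Fin (r + 1), ((algebraMap ℂ R ε)⁻¹ *
                  algebraMap ℂ R (c (i, Fin.natAdd b j))) * D j f +
                ∑ j : Fin (r + 1), ∑ k,
                  algebraMap ℂ R (c (i, Fin.castAdd (r + 1) k)) * w k j * D j f := by
              simp only [add_mul, Finset.sum_add_distrib, Finset.sum_mul]
            have a2 : ∑ k : Fin b, algebraMap ℂ R (c (i, Fin.castAdd (r + 1) k)) *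
                (B (Fin.castAdd (r + 1) k) f + ∑ j, w k j * D j f) =
                ∑ k : Fin b, algebraMap ℂ R (c (i, Fin.castAdd (r + 1) k)) *
                  B (Fin.castAdd (r + 1) k) f +
                ∑ j : Fin (r + 1), ∑ k,
                  algebraMap ℂ R (c (i, Fin.castAdd (r + 1) k)) * w k j * D j f := by
              rw [Finset.sum_comm]
              simp only [mul_add, Finset.sum_add_distrib, Finset.mul_sum, mul_assoc]
            rw [a1, a2]
            ring
          change (resPl ℂ v).Reg _
          rw [h2]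
          have hinv : (algebraMap ℂ R ε)⁻¹ = algebraMap ℂ R ε⁻¹ := (map_inv₀ _ _).symm
          rw [hinv]
          have hc0 : ∀ u : ℂ, algebraMap ℂ R u ∈ (resPl ℂ v).O := fun u => Ge.const u
          exact (resPl ℂ v).O.add_mem _ _
            (sum_mem fun k _ => (resPl ℂ v).O.mul_mem _ _ (hc0 _) (hreg _ _ hf))
            (sum_mem fun j _ => (resPl ℂ v).O.mul_mem _ _
              ((resPl ℂ v).O.mul_mem _ _ (hc0 _) (hc0 _)) (hD.reg j v hv f hf))
        · rw [Pool.Agent.W308.PG.YLOC.der_sum_apply, Pool.Agent.W308.PG.YLOC.der_sum_apply,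
            map_sum]
          refine Finset.sum_congr rfl fun p _ => ?_
          change algebraMap R Ω' (gR (i, p)) * BΩ p (algebraMap R Ω' z) =
            algebraMap R Ω' (gR (i, p) * frame B D p z)
          rw [hBΩ, map_mul]
    obtain ⟨w', hw1, hw2⟩ := hmem
    exact ⟨w', hw1, hw2⟩
  have hne : S.Nonempty := by
    by_contra hS
    rw [Set.not_nonempty_iff_eq_empty] at hS
    exact hx0.1.transcendental 0 (hD.const (x0 0) fun P hP => by
      rw [hS] at hP
      exact absurd hP (Set.notMem_empty P))
  obtain ⟨v0, hv0⟩ := hne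
  obtain ⟨w, -, hw⟩ := key v0 hv0
  have h1 : IsAlgebraic M w := hD.const w fun v hv => by
    obtain ⟨w', h2, h3⟩ := key v hv
    rw [← hw] at h3
    rw [← (algebraMap R Ω').injective h3]
    exact h2
  rw [← hw]
  exact h1.algebraMap

end

end Pool.Agent.U393.SA
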