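import Pool.Agent.U393.SA.Sweep

/-!
Embeddings of the function field of a product.
-/

set_option autoImplicit false
set_option linter.overlappingInstances false
set_option linter.unusedSectionVars false

namespace Pool.Agent.U393.SA

/-- a large algebraically closed field -/
theorem exists_big (R : Type) [Field R] (d : ℕ) :
    ∃ (κ : Type) (_ : Field κ) (_ : Algebra R κ) (_ : IsAlgClosed κ) (Y : Fin d → κ),
      AlgebraicIndependent R Y := by
  let E := FractionRing (MvPolynomial (Fin d) R)
  let κ := AlgebraicClosure E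
  let ι : MvPolynomial (Fin d) R →ₐ[R] κ := (IsScalarTower.toAlgHom R E κ).comp
    (IsScalarTower.toAlgHom R (MvPolynomial (Fin d) R) E)
  refine ⟨κ, inferInstance, inferInstance, inferInstance, fun i => ι (MvPolynomial.X i), ?_⟩
  exact (MvPolynomial.algebraicIndependent_X (Fin d) R).map' (f := ι)
    ((algebraMap E κ).injective.comp (IsFractionRing.injective (MvPolynomial (Fin d) R) E))

/-- extension of an embedding to algebraically independent elements -/
theorem exists_emb {T L κ : Type} [Field T] [Field L] [Field κ] [Algebra T L] [Algebra T κ]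
    [IsAlgClosed κ] {d : ℕ} {x : Fin d → L} (hx : IsTranscendenceBasis T x) {Y : Fin d → κ}
    (hY : AlgebraicIndependent T Y) : ∃ ψ : L →ₐ[T] κ, ∀ i, ψ (x i) = Y i := by
  let F0 := IntermediateField.adjoin T (Set.range x)
  let j : F0 →ₐ[T] κ := (IntermediateField.adjoin T (Set.range Y)).val.comp
    ((hY.aevalEquivField.toAlgHom).comp hx.1.aevalEquivField.symm.toAlgHom)
  have halg : Algebra.IsAlgebraic F0 L := hx.isAlgebraic_field
  let iF : Algebra F0 κ := j.toRingHom.toAlgebra
  have t1 : IsScalarTower T F0 κ := IsScalarTower.of_algebraMap_eq fun c => (j.commutes c).symm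
  let ψ : L →ₐ[F0] κ := IsAlgClosed.lift
  refine ⟨ψ.restrictScalars T, fun i => ?_⟩
  have hxi : x i ∈ F0 := IntermediateField.subset_adjoin T _ ⟨i, rfl⟩
  have h1 : hx.1.aevalEquivField (algebraMap (MvPolynomial (Fin d) T)
      (FractionRing (MvPolynomial (Fin d) T)) (MvPolynomial.X i)) = ⟨x i, hxi⟩ := by
    apply Subtype.ext
    rw [hx.1.aevalEquivField_algebraMap_apply_coe, MvPolynomial.aeval_X]
  have h2 : hx.1.aevalEquivField.symm ⟨x i, hxi⟩ = algebraMap (MvPolynomial (Fin d) T)
      (FractionRing (MvPolynomial (Fin d) T)) (MvPolynomial.X i) := by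
    rw [← h1, AlgEquiv.symm_apply_apply]
  change ψ (algebraMap F0 L ⟨x i, hxi⟩) = Y i
  rw [ψ.commutes]
  change ((hY.aevalEquivField (hx.1.aevalEquivField.symm ⟨x i, hxi⟩) :
    IntermediateField.adjoin T (Set.range Y)) : κ) = Y i
  rw [h2, hY.aevalEquivField_algebraMap_apply_coe, MvPolynomial.aeval_X]

/-- independence over a base change -/
theorem indep_base {M R κ ι ι' : Type} [Field M] [Field R] [Field κ] [Algebra M R] [Algebra R κ]
    [Algebra M κ] [IsScalarTower M R κ] {x : ι → R} (hx : AlgebraicIndependent M x) {Y : ι' → κ}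
    (hY : AlgebraicIndependent R Y) (M' : IntermediateField M κ)
    (hM' : ∀ z ∈ M', IsAlgebraic (IntermediateField.adjoin M (Set.range Y)) z) :
    AlgebraicIndependent M' (fun i => algebraMap R κ (x i)) := by
  have h1 := AlgebraicIndependent.sumElim_comp (R := M) (S := R) (A := κ) hx hY
  have h2 : AlgebraicIndependent M (Sum.elim (algebraMap R κ ∘ x) Y) := by
    have h3 := h1.comp (Equiv.sumComm ι ι') (Equiv.injective _)
    convert h3 using 1
    funext i
    rcases i with i | i <;> rfl
  have h3 := (AlgebraicIndependent.sumElim_iff.1 h2).2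
  have h4 := (IntermediateField.algebraicIndependent_adjoin_iff (F := M) (s := Set.range Y)
    (E := κ) (S := κ)).2 h3
  have h5 := h4.algebraicClosure
  let G : M' →+* algebraicClosure (IntermediateField.adjoin M (Set.range Y)) κ :=
    { toFun := fun z => ⟨z, mem_algebraicClosure_iff.2 (hM' z z.2)⟩
      map_one' := rfl
      map_mul' := fun _ _ => rfl
      map_zero' := rfl
      map_add' := fun _ _ => rfl }
  let iG : Algebra M' (algebraicClosure (IntermediateField.adjoin M (Set.range Y)) κ) :=
    G.toAlgebra
  have t1 : IsScalarTower M' (algebraicClosure (IntermediateField.adjoin M (Set.range Y)) κ) κ :=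
    IsScalarTower.of_algebraMap_eq fun _ => rfl
  exact h5.restrictScalars G.injective

end Pool.Agent.U393.SA
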