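import Pool.Agent.U192.TD.Main

/-!
The norms of the pull-backs of all forms are regular tensors after the multiplication with the same function.
-/

set_option autoImplicit false
set_option linter.overlappingInstances false
set_option linter.unusedSectionVars false

open FF Pool.Agent.W602.GT Pool.Agent.W603.LV Pool.Agent.W619.PQ Pool.Agent.Y172
open Pool.Agent.U192.TD
open Pool.Agent.U192.NM (dg Lv pol exists_basis_pol)
open Pool.Agent.U192.PB (up)
open Pool.Agent.U192.PE (adjoin_up mem_Lv)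
open Pool.Agent.U192.PT (der_eq_of_alg)

namespace Pool.Agent.U393.SA

section

variable {K U M : Type} [Field K] [Field U] [Field M] [Algebra ℂ K] [Algebra ℂ U] [Algebra ℂ M]
  [Algebra K M] [Algebra U M] [IsScalarTower ℂ K M] [IsScalarTower ℂ U M]
  [FiniteDimensional K M] [Algebra.EssFiniteType ℂ U] [Algebra.EssFiniteType ℂ M]

/-- **The norm of the pull-back of a form is regular downstairs.** -/
theorem reg_uni (Ω : Type) [Field Ω] [Algebra ℂ Ω] [Algebra K Ω] [Algebra M Ω]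
    [IsScalarTower ℂ K Ω] [IsScalarTower ℂ M Ω] [IsScalarTower K M Ω] [FiniteDimensional K Ω]
    [IsGalois K Ω] [Fintype (Ω ≃ₐ[K] Ω)]
    {d n m q : ℕ} (hU : Algebra.trdeg ℂ U = d) (hn : Algebra.trdeg ℂ K = n)
    {wU : Place ℂ U → ℤ} {wM : Place ℂ M → ℤ}
    (hw : ∀ (Q : Place ℂ M) (v : Place ℂ U) (e : ℕ), Over Q v e → wM Q = e * wU v)
    (f : Module.Basis (Fin q) K M) (hfU : ∀ j, ∃ g : U, algebraMap U M g = f j)
    (hf : ∀ j (Q : Place ℂ M), Ge Q (-(wM Q)) (f j))
    {x : Fin d → U} {Ex : Fin d → Derivation ℂ U U} (hx : IsTranscendenceBasis ℂ x)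
    (hEx : ∀ i j, Ex i (x j) = if i = j then 1 else 0) :
    ∃ s : K, s ≠ 0 ∧ ∀ α : (Fin d → Derivation ℂ U U) → U, IsPluri m α →
      (∀ v : Place ℂ U, Divisorial d v → ∀ G : Fin d → Derivation ℂ U U,
        (∀ i, DerReg v (G i)) → α G = 0 ∨ 2 * m * wU v ≤ v.ord (α G)) →
      RegDown K n (fun l => algebraMap M Ω (algebraMap U M (x l)))
        (algebraMap M Ω (algebraMap U M (α Ex))) m s := by
  classical
  obtain ⟨ε, hε0, hε⟩ := norm_fun (k := ℂ) Ω f
  refine ⟨ε ^ (m * Module.finrank M Ω), pow_ne_zero _ hε0, ?_⟩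
  intro α hα hpos P hP y E i0 hl EΩ hEΩ C
  have hnM : Algebra.trdeg ℂ M = n := Pool.Agent.Y172.trdeg_up hn
  have hfMΩ : FiniteDimensional M Ω := FiniteDimensional.right K M Ω
  choose E' hE' using fun i => exists_lift (L := M) hn (E i)
  have hEM : ∀ i z, EΩ i (algebraMap M Ω z) = algebraMap M Ω (E' i z) := by
    intro i z
    obtain ⟨E'', hE''⟩ := exists_lift (L := Ω) hnM (E' i)
    have h1 : EΩ i = E'' := der_eq_of_alg (K := K) hn (fun z => by
      rw [hEΩ, IsScalarTower.algebraMap_apply K M Ω z, hE'', hE',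
        ← IsScalarTower.algebraMap_apply K M Ω])
    rw [h1, hE'']
  obtain ⟨D, hD⟩ : ∃ D : Fin d → Derivation ℂ K K, ∀ i, D i =
    ∑ j, algebraMap ℂ K (C i j) • E j := ⟨_, fun _ => rfl⟩
  obtain ⟨DM, hDM⟩ : ∃ D : Fin d → Derivation ℂ M M, ∀ i, D i =
    ∑ j, algebraMap ℂ M (C i j) • E' j := ⟨_, fun _ => rfl⟩
  obtain ⟨DΩ, hDΩ⟩ : ∃ D : Fin d → Derivation ℂ Ω Ω, ∀ i, D i =
    ∑ j, algebraMap ℂ Ω (C i j) • EΩ j := ⟨_, fun _ => rfl⟩
  have hM : ∀ i z, DM i (algebraMap K M z) = algebraMap K M (D i z) := by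
    intro i z
    rw [hDM, hD, Pool.Agent.W308.PG.YLOC.der_sum_apply, Pool.Agent.W308.PG.YLOC.der_sum_apply,
      map_sum]
    refine Finset.sum_congr rfl fun j _ => ?_
    change algebraMap ℂ M (C i j) * E' j (algebraMap K M z) =
      algebraMap K M (algebraMap ℂ K (C i j) * E j z)
    rw [hE', map_mul, ← IsScalarTower.algebraMap_apply ℂ K M]
  have hΩ : ∀ i z, DΩ i (algebraMap M Ω z) = algebraMap M Ω (DM i z) := by
    intro i z
    rw [hDM, hDΩ, Pool.Agent.W308.PG.YLOC.der_sum_apply, Pool.Agent.W308.PG.YLOC.der_sum_apply,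
      map_sum]
    refine Finset.sum_congr rfl fun j _ => ?_
    change algebraMap ℂ Ω (C i j) * EΩ j (algebraMap M Ω z) =
      algebraMap M Ω (algebraMap ℂ M (C i j) * E' j z)
    rw [hEM, map_mul, ← IsScalarTower.algebraMap_apply ℂ M Ω]
  have hTT := TT_below (m := m) hn (x := fun l => algebraMap U M (x l))
    (a := algebraMap U M (α Ex)) hM hΩ
  have hDΩ' : (fun i => ∑ j, algebraMap ℂ Ω (C i j) • EΩ j) = DΩ := by
    funext i
    rw [hDΩ]
  rw [hDΩ', hTT]
  obtain ⟨z, hz⟩ : ∃ z, z = (Matrix.of fun i l => DM i (algebraMap U M (x l))).det ^ m *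
      algebraMap U M (α Ex) := ⟨_, rfl⟩
  have hz' : z = (Matrix.of fun i l => ∑ j, algebraMap ℂ M (C i j) *
      E' j (algebraMap U M (x l))).det ^ m * algebraMap U M (α Ex) := by
    rw [hz]
    congr 3
    ext i l
    rw [Matrix.of_apply, Matrix.of_apply, hDM, Pool.Agent.W308.PG.YLOC.der_sum_apply]
    rfl
  rw [← hz]
  refine ⟨(Algebra.norm K z * ε ^ m) ^ Module.finrank M Ω, ?_, ?_⟩
  · have h1 : Ge P 0 (Algebra.norm K z * ε ^ m) := by
      by_cases hz0 : z = 0
      · left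
        rw [hz0, Algebra.norm_zero, zero_mul]
      · right
        exact hε m P z hz0 fun Q e hQ j => tens_bound hU hnM hα hw hpos (fun j => f.ne_zero j)
          hfU hf hx hEx hP hl hE' C hz' hz0 Q e hQ j
    have h2 := h1.pow (Module.finrank M Ω)
    rwa [mul_zero] at h2
  · rw [mul_pow, ← pow_mul, map_mul, mul_comm]

end

section

variable {K L : Type} [Field K] [Field L] [Algebra ℂ K] [Algebra ℂ L]
  [Algebra K L] [IsScalarTower ℂ K L] [FiniteDimensional K L]
  [Algebra.EssFiniteType ℂ K] [Algebra.EssFiniteType ℂ L]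

/-- **The tensor.** -/
theorem tensor_uni (Ω : Type) [Field Ω] [Algebra ℂ Ω] [Algebra K Ω] [Algebra L Ω]
    [IsScalarTower ℂ K Ω] [IsScalarTower ℂ L Ω] [IsScalarTower K L Ω] [FiniteDimensional K Ω]
    [IsGalois K Ω] [Fintype (Ω ≃ₐ[K] Ω)] (U : IntermediateField ℂ L) {κ : ℕ}
    (X : Fin κ → Finset U) (hX : IntermediateField.adjoin ℂ (⋃ i, (X i : Set U)) = ⊤)
    {d n m : ℕ} (hU : Algebra.trdeg ℂ U = d) (hn : Algebra.trdeg ℂ K = n)
    {x : Fin d → U} {Ex : Fin d → Derivation ℂ U U} (hx : IsTranscendenceBasis ℂ x)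
    (hEx : ∀ i j, Ex i (x j) = if i = j then 1 else 0) :
    ∃ s : K, s ≠ 0 ∧ ∀ α : (Fin d → Derivation ℂ U U) → U, IsPluri m α →
      (∀ v : Place ℂ U, Divisorial d v → ∀ G : Fin d → Derivation ℂ U U,
        (∀ i, DerReg v (G i)) → α G = 0 ∨
        ∑ i, 2 * (m : ℤ) * ((dg K (up U X) i : ℤ) - 1) * pol (X i) v ≤ v.ord (α G)) →
      RegDown K n (fun l => algebraMap L Ω (x l)) (algebraMap L Ω (α Ex)) m s := by
  classical
  have hcK : CharZero K := charZero_of_injective_algebraMap (algebraMap ℂ K).injective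
  have hUe : Algebra.EssFiniteType ℂ U := Pool.Agent.N999.SX.ess_any U
  have hXL := adjoin_up (U := U) hX
  have hXE : ∀ i, ∀ z ∈ up U X i, z ∈ U := by
    intro i z hz
    unfold up at hz
    rw [Finset.mem_map] at hz
    obtain ⟨u, -, rfl⟩ := hz
    exact u.2
  have hE : ∀ z ∈ U, z ∈ Lv K (up U X) κ := mem_Lv hXL
  obtain ⟨q, f, hf⟩ := exists_basis_pol K hXE hE
  let M := Lv K (up U X) κ
  let iUM : Algebra U M := ({ toFun := fun u => ⟨(u : L), hE u u.2⟩
                              map_one' := rfl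
                              map_mul' := fun _ _ => rfl
                              map_zero' := rfl
                              map_add' := fun _ _ => rfl } : U →+* M).toAlgebra
  have t1 : IsScalarTower ℂ U M := IsScalarTower.of_algebraMap_eq fun _ => rfl
  have t2 : IsScalarTower ℂ M Ω := IsScalarTower.of_algebraMap_eq fun c => by
    change algebraMap ℂ Ω c = algebraMap L Ω (algebraMap ℂ L c)
    rw [← IsScalarTower.algebraMap_apply ℂ L Ω]
  have t3 : IsScalarTower ℂ M L := IsScalarTower.of_algebraMap_eq fun _ => rfl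
  have hMe : Algebra.EssFiniteType ℂ M := by
    have h1 : Algebra.EssFiniteType K M := inferInstance
    exact Algebra.EssFiniteType.comp ℂ K M
  obtain ⟨XM, hXM⟩ : ∃ XM : Fin κ → Finset M, ∀ i z, z ∈ XM i ↔
      ∃ u ∈ X i, algebraMap U M u = z :=
    ⟨fun i => (X i).image (algebraMap U M), fun i z => by rw [Finset.mem_image]⟩
  have hXL' : ∀ i z, z ∈ up U X i ↔ ∃ u ∈ XM i, algebraMap M L u = z := by
    intro i z
    unfold up
    rw [Finset.mem_map]
    constructor
    · rintro ⟨u, hu, rfl⟩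
      exact ⟨algebraMap U M u, (hXM i _).2 ⟨u, hu, rfl⟩, rfl⟩
    · rintro ⟨w, hw, rfl⟩
      obtain ⟨u, hu, rfl⟩ := (hXM i _).1 hw
      exact ⟨u, hu, rfl⟩
  have hw : ∀ (Q : Place ℂ M) (v : Place ℂ U) (e : ℕ), Over Q v e →
      ∑ i, ((dg K (up U X) i : ℤ) - 1) * (pol (XM i) Q : ℤ) =
      e * ∑ i, ((dg K (up U X) i : ℤ) - 1) * (pol (X i) v : ℤ) := by
    intro Q v e hQ
    rw [Finset.mul_sum]
    refine Finset.sum_congr rfl fun i _ => ?_
    rw [pol_img (hXM i) hQ]
    push_cast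
    ring
  have hfQ : ∀ (j : Fin q) (Q : Place ℂ M), Ge Q
      (-(∑ i, ((dg K (up U X) i : ℤ) - 1) * (pol (XM i) Q : ℤ))) (f j) := by
    intro j Q
    obtain ⟨Q', e, hQ'⟩ := exists_above (k := ℂ) (K := M) (L := L) Q
    have h1 := (hf j).2 Q'
    have h2 : Pool.Agent.U192.NM.wt K (up U X) κ Q' =
        e * ∑ i, ((dg K (up U X) i : ℤ) - 1) * (pol (XM i) Q : ℤ) := by
      unfold Pool.Agent.U192.NM.wt
      rw [Finset.mul_sum]
      refine Finset.sum_congr rfl fun i _ => ?_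
      rw [if_pos i.2, pol_img (hXL' i) hQ']
      push_cast
      ring
    have h3 : ((f j : M) : L) = algebraMap M L (f j) := rfl
    rw [h2, h3, ← mul_neg] at h1
    exact (over_ge hQ').1 h1
  obtain ⟨s, hs0, hs⟩ := reg_uni (K := K) (U := U) (M := M) (m := m) Ω hU hn
    (wU := fun v => ∑ i, ((dg K (up U X) i : ℤ) - 1) * pol (X i) v)
    (wM := fun Q => ∑ i, ((dg K (up U X) i : ℤ) - 1) * pol (XM i) Q) hw
    f (fun j => ⟨⟨_, (hf j).1⟩, rfl⟩) hfQ hx hEx
  refine ⟨s, hs0, fun α hα hpos => hs α hα fun v hv G hG => ?_⟩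
  rcases hpos v hv G hG with h | h
  · exact Or.inl h
  · right
    refine le_trans (le_of_eq ?_) h
    rw [Finset.mul_sum]
    refine Finset.sum_congr rfl fun i _ => ?_
    ring

end

end Pool.Agent.U393.SA
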