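import Pool.Agent.U393.SA.Alg
import Pool.Agent.U393.SA.Uni
import Pool.Agent.U393.UT.Cover

/-!
Families of almost homogeneous varieties on the images of a family over a positive base.
-/

set_option autoImplicit false
set_option linter.overlappingInstances false
set_option linter.unusedSectionVars false

open FF Pool.Agent.W602.GT Pool.Agent.W603.LV Pool.Agent.W619.PQ Pool.Agent.Y172
open Pool.Agent.U192.NM (dg Lv pol exists_basis_pol)
open Pool.Agent.U192.PB (up)

namespace Pool.Agent.U393.SA

/-- a common extension -/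
theorem exists_over_both {K Ω R : Type} [Field K] [Field Ω] [Field R] [Algebra ℂ K] [Algebra ℂ Ω]
    [Algebra ℂ R] [Algebra K Ω] [Algebra K R] [IsScalarTower ℂ K Ω] [IsScalarTower ℂ K R]
    [FiniteDimensional K Ω] [CharZero K] :
    ∃ (Ω' : Type) (_ : Field Ω') (_ : Algebra ℂ Ω') (_ : Algebra K Ω') (_ : Algebra Ω Ω')
      (_ : Algebra R Ω'), IsScalarTower ℂ Ω Ω' ∧ IsScalarTower ℂ R Ω' ∧
      IsScalarTower K Ω Ω' ∧ IsScalarTower K R Ω' ∧ FiniteDimensional R Ω' := by
  let A := AlgebraicClosure R
  have s1 : IsScalarTower K R A := inferInstance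
  let σ : Ω →ₐ[K] A := IsAlgClosed.lift
  obtain ⟨θ, hθ⟩ := Field.exists_primitive_element K Ω
  have hint : IsIntegral R (σ θ) :=
    ((Algebra.IsIntegral.isIntegral (R := K) θ).map σ).tower_top
  let Ω' : IntermediateField R A := IntermediateField.adjoin R {σ θ}
  have hfd : FiniteDimensional R Ω' := IntermediateField.adjoin.finiteDimensional hint
  have hσ : ∀ z, σ z ∈ Ω' := by
    intro z
    have h1 : z ∈ IntermediateField.adjoin K {θ} := by
      rw [hθ]
      trivial
    have h2 : σ z ∈ (IntermediateField.adjoin K {θ}).map σ := ⟨z, h1, rfl⟩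
    rw [IntermediateField.adjoin_map, Set.image_singleton] at h2
    have h3 : IntermediateField.adjoin K {σ θ} ≤ Ω'.restrictScalars K := by
      rw [IntermediateField.adjoin_le_iff, Set.singleton_subset_iff]
      exact IntermediateField.mem_adjoin_simple_self R (σ θ)
    exact h3 h2
  let ι : Ω →+* Ω' := σ.toRingHom.codRestrict Ω'.toSubfield hσ
  let iΩ : Algebra Ω Ω' := ι.toAlgebra
  let iK : Algebra K Ω' := ((algebraMap R Ω').comp (algebraMap K R)).toAlgebra
  let iC : Algebra ℂ Ω' := ((algebraMap R Ω').comp (algebraMap ℂ R)).toAlgebra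
  refine ⟨Ω', inferInstance, iC, iK, iΩ, inferInstance, ?_, ?_, ?_, ?_, hfd⟩
  · refine IsScalarTower.of_algebraMap_eq fun c => Subtype.ext ?_
    change algebraMap R A (algebraMap ℂ R c) = σ (algebraMap ℂ Ω c)
    rw [IsScalarTower.algebraMap_apply ℂ K Ω, σ.commutes, IsScalarTower.algebraMap_apply ℂ K R,
      ← IsScalarTower.algebraMap_apply K R A]
  · exact IsScalarTower.of_algebraMap_eq fun _ => rfl
  · refine IsScalarTower.of_algebraMap_eq fun c => Subtype.ext ?_
    change algebraMap R A (algebraMap K R c) = σ (algebraMap K Ω c)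
    rw [σ.commutes, ← IsScalarTower.algebraMap_apply K R A]
  · exact IsScalarTower.of_algebraMap_eq fun _ => rfl

section

variable {L : Type} [Field L] [Algebra ℂ L] [Algebra.EssFiniteType ℂ L]

/-- **Lifting of families of almost homogeneous varieties.** -/
theorem lift (U : IntermediateField ℂ L) {d n m κ b r : ℕ} (hU : Algebra.trdeg ℂ U = d)
    (X : Fin κ → Finset U) (hX : IntermediateField.adjoin ℂ (⋃ i, (X i : Set U)) = ⊤)
    {K : Type} [Field K] [Algebra ℂ K] [Algebra K L] [IsScalarTower ℂ K L]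
    [FiniteDimensional K L] (hn : Algebra.trdeg ℂ K = n)
    (hinj : IntermediateField.adjoin K (U : Set L) = ⊤)
    {α : Fin (d + 1) → (Fin d → Derivation ℂ U U) → U} (hα : ∀ j, IsPluri m (α j))
    (hpos : ∀ j, ∀ v : Place ℂ U, Divisorial d v → ∀ G : Fin d → Derivation ℂ U U,
      (∀ i, DerReg v (G i)) → α j G = 0 ∨
      ∑ i, 2 * (m : ℤ) * ((dg K (up U X) i : ℤ) - 1) * pol (X i) v ≤ v.ord (α j G))
    {G0 : Fin d → Derivation ℂ U U} (hG0 : α 0 G0 ≠ 0)
    (hind : AlgebraicIndependent ℂ fun j : Fin d => α j.succ G0 / α 0 G0)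
    {M R : Type} [Field M] [Field R] [Algebra ℂ M] [Algebra ℂ R] [Algebra M R]
    [IsScalarTower ℂ M R] [Algebra.EssFiniteType ℂ R] [Algebra K R] [IsScalarTower ℂ K R]
    (hM : Algebra.trdeg ℂ M = b) (hR : Algebra.trdeg M R = (r + 1 : ℕ))
    {S : Set (Place M R)} {D : Fin (r + 1) → Derivation M R R} (hD : Homog S D) :
    ∃ (R' : Type) (_ : Field R') (_ : Algebra R R') (_ : Algebra M R')
      (_ : IsScalarTower M R R') (_ : FiniteDimensional R R') (φ : L →+* R')
      (M' : IntermediateField M R'), FiniteDimensional M M' ∧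
      IntermediateField.adjoin R (M' : Set R') = ⊤ ∧
      (∀ z : K, φ (algebraMap K L z) = algebraMap R R' (algebraMap K R z)) ∧
      ∀ u ∈ U, φ u ∈ M' := by
  classical
  have hcK : CharZero K := charZero_of_injective_algebraMap (algebraMap ℂ K).injective
  have hUe : Algebra.EssFiniteType ℂ U := Pool.Agent.N999.SX.ess_any U
  have hKe : Algebra.EssFiniteType ℂ K := Pool.Agent.TH466.QG.ess_below (K := L)
  -- the Galois closure
  let Ω := IntermediateField.normalClosure K L (AlgebraicClosure L)
  have hfin : FiniteDimensional K Ω := inferInstance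
  have hnorm : Normal K Ω := inferInstance
  have hgal : IsGalois K Ω := IsGalois.mk
  let ik : Algebra ℂ Ω := ((algebraMap L Ω).comp (algebraMap ℂ L)).toAlgebra
  have ht2 : IsScalarTower ℂ L Ω := IsScalarTower.of_algebraMap_eq fun _ => rfl
  have ht3 : IsScalarTower ℂ K Ω := IsScalarTower.of_algebraMap_eq fun c => by
    change algebraMap L Ω (algebraMap ℂ L c) = _
    rw [IsScalarTower.algebraMap_apply ℂ K L, ← IsScalarTower.algebraMap_apply K L Ω]
  have hfty : Fintype (Ω ≃ₐ[K] Ω) := Fintype.ofFinite _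
  obtain ⟨Ω', iF, iC, iK, iΩ, iR, u1, u2, u3, u4, hfd⟩ :=
    exists_over_both (K := K) (Ω := Ω) (R := R)
  let iM : Algebra M Ω' := ((algebraMap R Ω').comp (algebraMap M R)).toAlgebra
  have u5 : IsScalarTower M R Ω' := IsScalarTower.of_algebraMap_eq fun _ => rfl
  have u6 : IsScalarTower ℂ M Ω' := IsScalarTower.of_algebraMap_eq fun c => by
    change algebraMap ℂ Ω' c = algebraMap R Ω' (algebraMap M R (algebraMap ℂ M c))
    rw [← IsScalarTower.algebraMap_apply ℂ M R, ← IsScalarTower.algebraMap_apply ℂ R Ω']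
  -- the tensors
  obtain ⟨x, Ex, hx, hEx⟩ := exists_crd hU
  obtain ⟨s, hs0, hs⟩ := tensor_uni (m := m) Ω U X hX hU hn hx hEx
  have hcoord : ∀ j, α j G0 = (Matrix.of fun i l => G0 i (x l)).det ^ m * α j Ex := fun j =>
    pluri_coord hx hEx (hα j) G0
  have ha : α 0 Ex ≠ 0 := by
    intro h0
    apply hG0
    rw [hcoord, h0, mul_zero]
  obtain ⟨g, hg⟩ : ∃ g : Fin d → U, ∀ j, g j = α j.succ Ex / α 0 Ex := ⟨_, fun _ => rfl⟩
  have hgi : AlgebraicIndependent ℂ g := by
    have h1 : (fun j : Fin d => α j.succ G0 / α 0 G0) = g := by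
      funext j
      rw [hg, hcoord, hcoord 0]
      have h2 : (Matrix.of fun i l => G0 i (x l)).det ^ m ≠ 0 := by
        intro h0
        apply hG0
        rw [hcoord, h0, zero_mul]
      rw [mul_div_mul_left _ _ h2]
    rw [← h1]
    exact hind
  have hxΩ : AlgebraicIndependent ℂ (fun l => algebraMap L Ω (x l)) := by
    have h1 : AlgebraicIndependent ℂ (fun l => (x l : L)) :=
      hx.1.map' (f := U.val) U.val.toRingHom.injective
    exact h1.map' (f := IsScalarTower.toAlgHom ℂ L Ω) (algebraMap L Ω).injective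
  have haΩ : algebraMap L Ω (α 0 Ex : U) ≠ 0 := by
    rw [Ne, map_eq_zero]
    exact fun h0 => ha (Subtype.ext h0)
  have hgalg : ∀ j, IsAlgebraic M (algebraMap Ω Ω' (algebraMap L Ω (g j : U))) := by
    intro j
    refine alg_of_reg (R := R) hn hM hR hD hxΩ haΩ hs0 (hs (α 0) (hα 0) (hpos 0)) fun c => ?_
    have h1 := hs (fun G => α j.succ G + algebraMap ℂ U c * α 0 G) (fun A G => ?_)
      (fun v hv G hG => ?_)
    · have h2 : (algebraMap L Ω (g j : U) + algebraMap ℂ Ω c) * algebraMap L Ω (α 0 Ex : U) =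
          algebraMap L Ω ((α j.succ Ex + algebraMap ℂ U c * α 0 Ex : U) : L) := by
        have h3 : (α j.succ Ex + algebraMap ℂ U c * α 0 Ex : U) =
            (g j + algebraMap ℂ U c) * α 0 Ex := by
          rw [hg, add_mul, div_mul_cancel₀ _ ha]
        rw [h3]
        let ψ : U →+* Ω := (algebraMap L Ω).comp (algebraMap U L)
        change (ψ (g j) + algebraMap ℂ Ω c) * ψ (α 0 Ex) = ψ ((g j + algebraMap ℂ U c) * α 0 Ex)
        rw [map_mul, map_add]
        rfl
      rw [h2]
      exact h1
    · change α j.succ _ + algebraMap ℂ U c * α 0 _ = _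
      rw [hα j.succ, hα 0]
      ring
    · by_cases h0 : α j.succ G + algebraMap ℂ U c * α 0 G = 0
      · exact Or.inl h0
      right
      have h2 : Ge v (∑ i, 2 * (m : ℤ) * ((dg K (up U X) i : ℤ) - 1) * pol (X i) v)
          (α j.succ G) := hpos j.succ v hv G hG
      have h3 : Ge v (∑ i, 2 * (m : ℤ) * ((dg K (up U X) i : ℤ) - 1) * pol (X i) v)
          (α 0 G) := hpos 0 v hv G hG
      have h4 := (Ge.const (P := v) c).mul h3
      rw [zero_add] at h4
      exact (h2.add h4).resolve_left h0
  -- the field `U` is algebraic over `M`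
  have hbas : IsTranscendenceBasis ℂ g := by
    refine hgi.isTranscendenceBasis_of_lift_trdeg_le_of_finite ?_
    rw [hU]
    simp
  have hUalg : ∀ u : U, IsAlgebraic M (algebraMap Ω Ω' (algebraMap L Ω u)) := by
    intro u
    have h2 : Algebra.IsAlgebraic (IntermediateField.adjoin ℂ (Set.range g)) U :=
      hbas.isAlgebraic_field
    let φ : U →ₐ[ℂ] Ω' := (IsScalarTower.toAlgHom ℂ Ω Ω').comp
      ((IsScalarTower.toAlgHom ℂ L Ω).comp U.val)
    let A : IntermediateField ℂ Ω' := (algebraicClosure M Ω').restrictScalars ℂ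
    have h3 : (IntermediateField.adjoin ℂ (Set.range g)).map φ ≤ A := by
      rw [IntermediateField.adjoin_map, IntermediateField.adjoin_le_iff]
      rintro _ ⟨_, ⟨l, rfl⟩, rfl⟩
      change _ ∈ algebraicClosure M Ω'
      rw [mem_algebraicClosure_iff]
      exact hgalg l
    have h4 : IsAlgebraic A (φ u) := Pool.Agent.U192.PE.alg_map φ h3 (h2.isAlgebraic u)
    have h5 : IsAlgebraic (algebraicClosure M Ω') (φ u) := h4
    exact h5.restrictScalars M
  -- the new family
  let ι : L →+* Ω' := (algebraMap Ω Ω').comp (algebraMap L Ω)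
  obtain ⟨T, hT⟩ : ∃ T : Set L, T = (fun u : U => (u : L)) '' (⋃ i, (X i : Set U)) := ⟨_, rfl⟩
  have hTf : T.Finite := by
    rw [hT]
    exact (Set.finite_iUnion fun i => (X i).finite_toSet).image _
  have hTalg : ∀ t ∈ ι '' T, IsIntegral M t := by
    rintro _ ⟨_, ht, rfl⟩
    rw [hT] at ht
    obtain ⟨u, -, rfl⟩ := ht
    exact (hUalg u).isIntegral
  have hTf' : Finite (ι '' T) := (hTf.image ι).to_subtype
  let N : IntermediateField M Ω' := IntermediateField.adjoin M (ι '' T)
  have hNfd : FiniteDimensional M N := IntermediateField.finiteDimensional_adjoin hTalg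
  let R' : IntermediateField R Ω' := IntermediateField.adjoin R (ι '' T)
  have hNR : ∀ z ∈ N, z ∈ R' := by
    have h1 : N ≤ R'.restrictScalars M := by
      rw [IntermediateField.adjoin_le_iff]
      exact IntermediateField.subset_adjoin R _
    exact h1
  have hUN : ∀ u ∈ U, ι u ∈ N := by
    intro u hu
    let φ : U →ₐ[ℂ] Ω' := (IsScalarTower.toAlgHom ℂ Ω Ω').comp
      ((IsScalarTower.toAlgHom ℂ L Ω).comp U.val)
    have h1 : (⟨u, hu⟩ : U) ∈ IntermediateField.adjoin ℂ (⋃ i, (X i : Set U)) := by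
      rw [hX]
      trivial
    have h2 : φ ⟨u, hu⟩ ∈ (IntermediateField.adjoin ℂ (⋃ i, (X i : Set U))).map φ :=
      ⟨_, h1, rfl⟩
    rw [IntermediateField.adjoin_map] at h2
    have h3 : IntermediateField.adjoin ℂ (φ '' (⋃ i, (X i : Set U))) ≤ N.restrictScalars ℂ := by
      rw [IntermediateField.adjoin_le_iff]
      rintro _ ⟨w, hw, rfl⟩
      refine IntermediateField.subset_adjoin M _ ⟨(w : L), ?_, rfl⟩
      rw [hT]
      exact ⟨w, hw, rfl⟩
    exact h3 h2
  have hιR : ∀ z : L, ι z ∈ R' := by
    intro z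
    let ιK : L →ₐ[K] Ω' := { ι with
      commutes' := fun c => by
        change algebraMap Ω Ω' (algebraMap L Ω (algebraMap K L c)) = algebraMap K Ω' c
        rw [← IsScalarTower.algebraMap_apply K L Ω, ← IsScalarTower.algebraMap_apply K Ω Ω'] }
    have h1 : z ∈ IntermediateField.adjoin K (U : Set L) := by
      rw [hinj]
      trivial
    have h2 : ιK z ∈ (IntermediateField.adjoin K (U : Set L)).map ιK := ⟨_, h1, rfl⟩
    rw [IntermediateField.adjoin_map] at h2
    have h3 : IntermediateField.adjoin K (ιK '' (U : Set L)) ≤ R'.restrictScalars K := by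
      rw [IntermediateField.adjoin_le_iff]
      rintro _ ⟨w, hw, rfl⟩
      exact hNR _ (hUN w hw)
    exact h3 h2
  let iMR : Algebra M R' := ((algebraMap R R').comp (algebraMap M R)).toAlgebra
  have v1 : IsScalarTower M R R' := IsScalarTower.of_algebraMap_eq fun _ => rfl
  let val : R' →ₐ[M] Ω' := { R'.val.toRingHom with commutes' := fun _ => rfl }
  let M' : IntermediateField M R' := N.comap val
  have hM' : ∀ z : R', z ∈ M' ↔ (z : Ω') ∈ N := fun _ => Iff.rfl
  refine ⟨R', inferInstance, inferInstance, iMR, v1, inferInstance,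
    ι.codRestrict R'.toSubfield hιR, M', ?_, ?_, ?_, ?_⟩
  · let f : M' →ₗ[M] N :=
      { toFun := fun z => ⟨((z : R') : Ω'), z.2⟩
        map_add' := fun _ _ => rfl
        map_smul' := fun c z => Subtype.ext (by
          have h1 := map_smul val c (z : R')
          exact h1) }
    exact FiniteDimensional.of_injective f fun z w h => by
      have h1 := congrArg Subtype.val h
      exact Subtype.ext (Subtype.ext h1)
  · rw [eq_top_iff]
    intro z _
    have h1 : (z : Ω') ∈ IntermediateField.adjoin R (ι '' T) := z.2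
    have h2 : IntermediateField.adjoin R (ι '' T) ≤
        (IntermediateField.adjoin R (M' : Set R')).map R'.val := by
      rw [IntermediateField.adjoin_map]
      refine IntermediateField.adjoin.mono R _ _ fun t ht => ?_
      have ht' : t ∈ R' := IntermediateField.subset_adjoin R _ ht
      exact ⟨⟨t, ht'⟩, IntermediateField.subset_adjoin M _ ht, rfl⟩
    obtain ⟨w, hw, hwz⟩ := h2 h1
    have h3 : w = z := Subtype.ext hwz
    rw [← h3]
    exact hw
  · intro z
    apply Subtype.ext
    change algebraMap Ω Ω' (algebraMap L Ω (algebraMap K L z)) =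
      algebraMap R Ω' (algebraMap K R z)
    rw [← IsScalarTower.algebraMap_apply K L Ω, ← IsScalarTower.algebraMap_apply K Ω Ω',
      ← IsScalarTower.algebraMap_apply K R Ω']
  · exact fun u hu => hUN u hu

end

end Pool.Agent.U393.SA
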