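import Pool.Agent.U393.SA.Emb

/-!
Products with a variety which is swept out by almost homogeneous varieties.
-/

set_option autoImplicit false
set_option linter.overlappingInstances false
set_option linter.unusedSectionVars false

namespace Pool.Agent.U393.SA

variable {C : ∀ (M R : Type) [Field M] [Field R] [Algebra M R], ℕ → Prop}

theorem gen_mem {L B : Type} [Field L] [Field B] [Algebra ℂ L] [Algebra ℂ B]
    {U : IntermediateField ℂ L} {G : Set U} (hG : IntermediateField.adjoin ℂ G = ⊤)
    (φ : L →ₐ[ℂ] B) (A : IntermediateField ℂ B) (h : ∀ u ∈ G, φ (u : L) ∈ A) {u : L}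
    (hu : u ∈ U) : φ u ∈ A := by
  have h1 : (⊤ : IntermediateField ℂ U) ≤ A.comap (φ.comp U.val) := by
    rw [← hG, IntermediateField.adjoin_le_iff]
    exact h
  have h2 : (⟨u, hu⟩ : U) ∈ A.comap (φ.comp U.val) := h1 trivial
  exact h2

/-- **The families on a factor of a product.** -/
theorem prod_down {L : Type} [Field L] [Algebra ℂ L] (U T : IntermediateField ℂ L)
    (hUT : U ⊔ T = ⊤) (h : SweptOut C U) : SweptOut C (⊥ : IntermediateField ℂ T) := by
  obtain ⟨M, R, iM, iR, iCM, iCR, iMR, r, φ, hs⟩ := h
  have t0 := hs.tower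
  refine ⟨M, R, iM, iR, iCM, iCR, iMR, r, φ.comp T.val, hs.tower,
    hs.fgM, hs.fgR, hs.dim, hs.mem, fun u hu => ?_, ?_⟩
  · rw [IntermediateField.mem_bot] at hu
    obtain ⟨c, rfl⟩ := hu
    refine ⟨algebraMap ℂ M c, ?_⟩
    rw [AlgHom.commutes, ← IsScalarTower.algebraMap_apply ℂ M R]
  · have h1 : IntermediateField.adjoin M (Set.range φ) ≤
        IntermediateField.adjoin M (Set.range (φ.comp T.val)) := by
      rw [IntermediateField.adjoin_le_iff]
      rintro _ ⟨z, rfl⟩
      have h2 : (⊤ : IntermediateField ℂ L) ≤ ((IntermediateField.adjoin M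
          (Set.range (φ.comp T.val))).restrictScalars ℂ).comap φ := by
        rw [← hUT]
        refine sup_le (fun u hu => ?_) fun w hw => ?_
        · obtain ⟨c, hc⟩ := hs.const u hu
          change φ u ∈ IntermediateField.adjoin M (Set.range (φ.comp T.val))
          rw [← hc]
          exact (IntermediateField.adjoin M (Set.range (φ.comp T.val))).algebraMap_mem c
        · exact IntermediateField.subset_adjoin M _ ⟨⟨w, hw⟩, rfl⟩
      exact h2 (trivial : z ∈ (⊤ : IntermediateField ℂ L))
    refine ⟨fun w => ?_⟩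
    have h4 := hs.finite.isAlgebraic w
    refine h4.ringHom_of_comp_eq (IntermediateField.inclusion h1).toRingHom (RingHom.id R)
      (IntermediateField.inclusion h1).toRingHom.injective ?_
    ext z
    rfl

/-- **The families on a product.** -/
theorem prod_up {L : Type} [Field L] [Algebra ℂ L] (U T : IntermediateField ℂ L)
    [Algebra.EssFiniteType ℂ U] {d n : ℕ}
    (hUT : U ⊔ T = ⊤) (hU : Algebra.trdeg ℂ U = d) (hT : Algebra.trdeg ℂ T = n)
    (hL : Algebra.trdeg ℂ L = (d + n : ℕ))
    (hC : IsClass C) (h : SweptOut C (⊥ : IntermediateField ℂ T)) : SweptOut C U := by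
  classical
  obtain ⟨M, R, iM, iR, iCM, iCR, iMR, r, φ, hs⟩ := h
  have t0 := hs.tower
  have hRe := hs.fgR
  have hMe := hs.fgM
  obtain ⟨κ, iκ, iRκ, iacκ, Y, hY⟩ := exists_big R d
  let iTR : Algebra T R := φ.toRingHom.toAlgebra
  let iTκ : Algebra T κ := ((algebraMap R κ).comp (algebraMap T R)).toAlgebra
  have t1 : IsScalarTower T R κ := IsScalarTower.of_algebraMap_eq fun _ => rfl
  let iCκ : Algebra ℂ κ := ((algebraMap R κ).comp (algebraMap ℂ R)).toAlgebra
  have t2 : IsScalarTower ℂ R κ := IsScalarTower.of_algebraMap_eq fun _ => rfl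
  have t3 : IsScalarTower ℂ T R := IsScalarTower.of_algebraMap_eq fun c => (φ.commutes c).symm
  have t4 : IsScalarTower ℂ T κ := IsScalarTower.of_algebraMap_eq fun c => by
    rw [IsScalarTower.algebraMap_apply T R κ, ← IsScalarTower.algebraMap_apply ℂ T R,
      ← IsScalarTower.algebraMap_apply ℂ R κ]
  obtain ⟨x, hx⟩ := Pool.Agent.W636.PG.exists_basis ℂ U d hU
  have hxT : IsTranscendenceBasis T (fun i => ((x i : U) : L)) :=
    Pool.Agent.U192.PB.basis_over (by rw [sup_comm]; exact hUT) hT
      (by rw [hL, add_comm]) hx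
  have hYT : AlgebraicIndependent T Y := hY.restrictScalars (algebraMap T R).injective
  obtain ⟨ψ1, hψ1⟩ := exists_emb hxT hYT
  let ψ0 : L →ₐ[ℂ] κ := ψ1.restrictScalars ℂ
  obtain ⟨G, hG⟩ := IntermediateField.fg_top ℂ U
  let R' : IntermediateField R κ :=
    IntermediateField.adjoin R ((G.image fun u : U => ψ0 (u : L) : Finset κ) : Set κ)
  have hψU : ∀ u ∈ U, ψ0 u ∈ R' := by
    intro u hu
    refine gen_mem hG ψ0 (R'.restrictScalars ℂ) (fun u hu => ?_) hu
    refine IntermediateField.subset_adjoin R _ ?_
    rw [Finset.coe_image]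
    exact ⟨u, hu, rfl⟩
  have hψ : ∀ z : L, ψ0 z ∈ R' := by
    have h1 : (⊤ : IntermediateField ℂ L) ≤ (R'.restrictScalars ℂ).comap ψ0 := by
      rw [← hUT]
      refine sup_le (fun u hu => hψU u hu) fun w hw => ?_
      have h2 : ψ0 w = algebraMap R κ (φ ⟨w, hw⟩) := ψ1.commutes ⟨w, hw⟩
      change ψ0 w ∈ R'
      rw [h2]
      exact R'.algebraMap_mem _
    exact fun z => h1 (trivial : z ∈ (⊤ : IntermediateField ℂ L))
  let iCR' : Algebra ℂ R' := ((algebraMap R R').comp (algebraMap ℂ R)).toAlgebra
  have t5 : IsScalarTower ℂ R R' := IsScalarTower.of_algebraMap_eq fun _ => rfl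
  let ψ : L →ₐ[ℂ] R' := { ψ0.toRingHom.codRestrict R'.toSubfield hψ with
    commutes' := fun c => Subtype.ext (ψ0.commutes c) }
  have hval : ∀ z, ((ψ z : R') : κ) = ψ0 z := fun _ => rfl
  let iMR' : Algebra M R' := ((algebraMap R R').comp (algebraMap M R)).toAlgebra
  have t6 : IsScalarTower M R R' := IsScalarTower.of_algebraMap_eq fun _ => rfl
  have t7 : IsScalarTower ℂ M R' := IsScalarTower.of_algebraMap_eq fun c => by
    rw [IsScalarTower.algebraMap_apply M R R', ← IsScalarTower.algebraMap_apply ℂ M R,
      ← IsScalarTower.algebraMap_apply ℂ R R']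
  let M' : IntermediateField M R' :=
    IntermediateField.adjoin M ((G.image fun u : U => ψ (u : L) : Finset R') : Set R')
  have hMU : ∀ u ∈ U, ψ u ∈ M' := by
    intro u hu
    refine gen_mem hG ψ (M'.restrictScalars ℂ) (fun u hu => ?_) hu
    refine IntermediateField.subset_adjoin M _ ?_
    rw [Finset.coe_image]
    exact ⟨u, hu, rfl⟩
  let iCM' : Algebra ℂ M' := ((algebraMap M M').comp (algebraMap ℂ M)).toAlgebra
  have t8 : IsScalarTower ℂ M M' := IsScalarTower.of_algebraMap_eq fun _ => rfl
  have t9 : IsScalarTower ℂ M' R' := IsScalarTower.of_algebraMap_eq fun c => by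
    change algebraMap ℂ R' c = algebraMap M' R' (algebraMap M M' (algebraMap ℂ M c))
    rw [← IsScalarTower.algebraMap_apply M M' R', ← IsScalarTower.algebraMap_apply ℂ M R']
  -- `R'` is generated by `M'` and `R`
  have hgen : IntermediateField.adjoin M' (Set.range (algebraMap R R')) = ⊤ := by
    have h1 : ∀ z : R', z ∈ IntermediateField.adjoin R
        ((G.image fun u : U => ψ (u : L) : Finset R') : Set R') := by
      intro z
      have h2 : (z : κ) ∈ (IntermediateField.adjoin R
          ((G.image fun u : U => ψ (u : L) : Finset R') : Set R')).map R'.val := by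
        rw [IntermediateField.adjoin_map]
        have h3 : (R'.val '' ((G.image fun u : U => ψ (u : L) : Finset R') : Set R')) =
            ((G.image fun u : U => ψ0 (u : L) : Finset κ) : Set κ) := by
          ext w
          rw [Finset.coe_image, Finset.coe_image]
          constructor
          · rintro ⟨_, ⟨u, hu, rfl⟩, rfl⟩
            exact ⟨u, hu, rfl⟩
          · rintro ⟨u, hu, rfl⟩
            exact ⟨_, ⟨u, hu, rfl⟩, rfl⟩
        rw [h3]
        exact z.2
      obtain ⟨w, hw, hwz⟩ := h2
      have h3 : w = z := Subtype.ext hwz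
      rw [← h3]
      exact hw
    rw [eq_top_iff]
    intro z _
    have h2 : (IntermediateField.adjoin R
        ((G.image fun u : U => ψ (u : L) : Finset R') : Set R')).toSubfield ≤
        (IntermediateField.adjoin M' (Set.range (algebraMap R R'))).toSubfield := by
      change Subfield.closure _ ≤ _
      rw [Subfield.closure_le]
      rintro z (⟨c, rfl⟩ | hz)
      · exact IntermediateField.subset_adjoin M' _ ⟨c, rfl⟩
      · have hz' : z ∈ M' := IntermediateField.subset_adjoin M _ hz
        exact (IntermediateField.adjoin M' (Set.range (algebraMap R R'))).algebraMap_mem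
          (⟨z, hz'⟩ : M')
    exact h2 (h1 z)
  -- independence
  have hY' : AlgebraicIndependent R (fun i => ψ ((x i : U) : L)) := by
    refine AlgebraicIndependent.of_comp R'.val ?_
    have h1 : (R'.val ∘ fun i => ψ ((x i : U) : L)) = Y := by
      funext i
      exact hψ1 i
    rw [h1]
    exact hY
  have hM'alg : ∀ z ∈ M', IsAlgebraic (IntermediateField.adjoin M
      (Set.range fun i => ψ ((x i : U) : L))) z := by
    have h1 : M' ≤ (algebraicClosure (IntermediateField.adjoin M
        (Set.range fun i => ψ ((x i : U) : L))) R').restrictScalars M := by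
      rw [IntermediateField.adjoin_le_iff]
      intro z hz
      rw [Finset.coe_image] at hz
      obtain ⟨u, -, rfl⟩ := hz
      change ψ (u : L) ∈ algebraicClosure _ R'
      rw [mem_algebraicClosure_iff]
      have h2 : Algebra.IsAlgebraic (IntermediateField.adjoin ℂ (Set.range x)) U :=
        hx.isAlgebraic_field
      let φU : U →ₐ[ℂ] R' := ψ.comp U.val
      let A : IntermediateField ℂ R' := (IntermediateField.adjoin M
        (Set.range fun i => ψ ((x i : U) : L))).restrictScalars ℂ
      have h3 : (IntermediateField.adjoin ℂ (Set.range x)).map φU ≤ A := by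
        rw [IntermediateField.adjoin_map, IntermediateField.adjoin_le_iff]
        rintro _ ⟨_, ⟨l, rfl⟩, rfl⟩
        exact IntermediateField.subset_adjoin M _ ⟨l, rfl⟩
      exact Pool.Agent.U192.PE.alg_map φU h3 (h2.isAlgebraic u)
    exact fun z hz => mem_algebraicClosure_iff.1 (h1 hz)
  have hind : ∀ {ι : Type} {x0 : ι → R}, AlgebraicIndependent M x0 →
      AlgebraicIndependent M' (fun i => algebraMap R R' (x0 i)) := fun hx0 =>
    indep_base hx0 hY' M' hM'alg
  obtain ⟨x0, hx0⟩ := Pool.Agent.W636.PG.exists_basis M R (r + 1) hs.dim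
  have hbas : IsTranscendenceBasis M' (fun i => algebraMap R R' (x0 i)) := by
    rw [(hind hx0.1).isTranscendenceBasis_iff_isAlgebraic,
      ← IntermediateField.isAlgebraic_adjoin_iff_top]
    have h1 : (⊤ : IntermediateField M' R') ≤ (algebraicClosure (IntermediateField.adjoin M'
        (Set.range fun i => algebraMap R R' (x0 i))) R').restrictScalars M' := by
      rw [← hgen, IntermediateField.adjoin_le_iff]
      rintro _ ⟨w, rfl⟩
      change algebraMap R R' w ∈ algebraicClosure _ R'
      rw [mem_algebraicClosure_iff]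
      have h2 : Algebra.IsAlgebraic (IntermediateField.adjoin M (Set.range x0)) R :=
        hx0.isAlgebraic_field
      have h3 : ∀ z ∈ IntermediateField.adjoin M (Set.range x0), algebraMap R R' z ∈
          IntermediateField.adjoin M' (Set.range fun i => algebraMap R R' (x0 i)) := by
        have h4 : IntermediateField.adjoin M (Set.range x0) ≤
            ((IntermediateField.adjoin M' (Set.range fun i =>
              algebraMap R R' (x0 i))).restrictScalars M).comap (IsScalarTower.toAlgHom M R R') := by
          rw [IntermediateField.adjoin_le_iff]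
          rintro _ ⟨i, rfl⟩
          exact IntermediateField.subset_adjoin M' _ ⟨i, rfl⟩
        exact h4
      let g : IntermediateField.adjoin M (Set.range x0) →+*
          IntermediateField.adjoin M' (Set.range fun i => algebraMap R R' (x0 i)) :=
        ((algebraMap R R').comp (algebraMap _ R)).codRestrict
          (IntermediateField.adjoin M' (Set.range fun i =>
            algebraMap R R' (x0 i))).toSubfield fun z => h3 z z.2
      refine (h2.isAlgebraic w).ringHom_of_comp_eq g (algebraMap R R') g.injective ?_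
      ext z
      rfl
    exact ⟨fun z => mem_algebraicClosure_iff.1
      (h1 (trivial : z ∈ (⊤ : IntermediateField M' R')))⟩
  have hdim : Algebra.trdeg M' R' = (r + 1 : ℕ) := by
    have h1 := hbas.cardinalMk_eq_trdeg
    rw [← h1, Cardinal.mk_fin]
  have hR'e : Algebra.EssFiniteType R R' := IntermediateField.essFiniteType_iff.2 ⟨_, rfl⟩
  have hM'e : Algebra.EssFiniteType M M' := IntermediateField.essFiniteType_iff.2 ⟨_, rfl⟩
  refine ⟨M', R', inferInstance, inferInstance, iCM', iCR', inferInstance, r, ψ, t9, ?_, ?_, hdim,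
    hC.base M R r hs.mem M' R' hgen hdim, fun u hu => ⟨⟨ψ u, hMU u hu⟩, rfl⟩,
    fin_up hs.finite hgen ?_⟩
  · exact Algebra.EssFiniteType.comp ℂ M M'
  · exact Algebra.EssFiniteType.comp ℂ R R'
  · rintro _ ⟨z, rfl⟩
    exact ⟨(z : L), Subtype.ext (ψ1.commutes z)⟩

end Pool.Agent.U393.SA
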