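import Pool.Agent.U192.TD.Poly

/-!
The top part of a polynomial with respect to a set of variables.
-/

set_option autoImplicit false
set_option linter.overlappingInstances false
set_option linter.unusedSectionVars false

open Pool.Agent.U192.TD (coeff_mem coeff_mem')

namespace Pool.Agent.U393.SA

section

variable {F : Type} [Field F] [Algebra ℂ F]

/-- the coefficients of a polynomial are combinations of its values at nonzero complex points -/
theorem coeff_mem_ne (V : Submodule ℂ F) (p : Polynomial F)
    (h : ∀ c : ℂ, c ≠ 0 → p.eval (algebraMap ℂ F c) ∈ V) (s : ℕ) : p.coeff s ∈ V := by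
  have h1 := coeff_mem' V (Polynomial.X * p) (fun c => by
    by_cases hc : c = 0
    · rw [hc, map_zero, Polynomial.eval_mul, Polynomial.eval_X, zero_mul]
      exact V.zero_mem
    · rw [Polynomial.eval_mul, Polynomial.eval_X, ← Algebra.smul_def]
      exact V.smul_mem c (h c hc)) (s + 1)
  rwa [Polynomial.coeff_X_mul] at h1

variable {σ : Type} [Fintype σ] (V : σ → Prop) [DecidablePred V]

/-- the degree with respect to the variables in `V` -/
def wt (s : σ →₀ ℕ) : ℕ := ∑ i, if V i then s i else 0

/-- the value of the top part -/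
noncomputable def top (q : MvPolynomial σ F) (e : ℕ) (c : σ → F) : F :=
  ∑ s ∈ q.support with wt V s = e, q.coeff s * ∏ i, c i ^ s i

theorem top_mem (W : Submodule ℂ F) {q : MvPolynomial σ F} {e : ℕ}
    (he : ∀ s ∈ q.support, wt V s ≤ e) (c w : σ → F)
    (h : ∀ ε : ℂ, ε ≠ 0 → MvPolynomial.eval
      (fun i => if V i then (algebraMap ℂ F ε)⁻¹ * c i + w i else c i) q ∈ W) :
    top V q e c ∈ W := by
  classical
  obtain ⟨Q, hQ⟩ : ∃ Q : Polynomial F, Q = ∑ s ∈ q.support, Polynomial.C (q.coeff s) *
    Polynomial.X ^ (e - wt V s) * ∏ i, (if V i then Polynomial.C (c i) +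
      Polynomial.X * Polynomial.C (w i) else Polynomial.C (c i)) ^ s i := ⟨_, rfl⟩
  have h0 : Q.coeff 0 = top V q e c := by
    rw [Polynomial.coeff_zero_eq_eval_zero, hQ, Polynomial.eval_finsetSum]
    unfold top
    rw [Finset.sum_filter]
    refine Finset.sum_congr rfl fun s hs => ?_
    rw [Polynomial.eval_mul, Polynomial.eval_mul, Polynomial.eval_C, Polynomial.eval_pow,
      Polynomial.eval_X, Polynomial.eval_prod]
    have h1 : ∏ j, Polynomial.eval 0 ((if V j then Polynomial.C (c j) +
        Polynomial.X * Polynomial.C (w j) else Polynomial.C (c j)) ^ s j) =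
        ∏ i, c i ^ s i := by
      refine Finset.prod_congr rfl fun i _ => ?_
      rw [Polynomial.eval_pow]
      split_ifs
      · rw [Polynomial.eval_add, Polynomial.eval_mul, Polynomial.eval_X, Polynomial.eval_C,
          zero_mul, add_zero]
      · rw [Polynomial.eval_C]
    rw [h1]
    by_cases hw : wt V s = e
    · rw [if_pos hw, hw, Nat.sub_self, pow_zero, mul_one]
    · have h2 := he s hs
      rw [if_neg hw, zero_pow (by omega), mul_zero, zero_mul]
  rw [← h0]
  refine coeff_mem_ne W Q (fun ε hε => ?_) 0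
  have hε' : algebraMap ℂ F ε ≠ 0 := by
    rwa [Ne, map_eq_zero]
  have h1 : Q.eval (algebraMap ℂ F ε) = (ε ^ e) • MvPolynomial.eval
      (fun i => if V i then (algebraMap ℂ F ε)⁻¹ * c i + w i else c i) q := by
    rw [hQ, Polynomial.eval_finsetSum, MvPolynomial.eval_eq', Finset.smul_sum]
    refine Finset.sum_congr rfl fun s hs => ?_
    rw [Polynomial.eval_mul, Polynomial.eval_mul, Polynomial.eval_C, Polynomial.eval_pow,
      Polynomial.eval_X, Polynomial.eval_prod, Algebra.smul_def, map_pow]
    have h2 : ∏ j, Polynomial.eval (algebraMap ℂ F ε) ((if V j then Polynomial.C (c j) +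
        Polynomial.X * Polynomial.C (w j) else Polynomial.C (c j)) ^ s j) =
        (algebraMap ℂ F ε) ^ wt V s *
          ∏ i, (if V i then (algebraMap ℂ F ε)⁻¹ * c i + w i else c i) ^ s i := by
      unfold wt
      rw [← Finset.prod_pow_eq_pow_sum, ← Finset.prod_mul_distrib]
      refine Finset.prod_congr rfl fun i _ => ?_
      rw [Polynomial.eval_pow]
      split_ifs
      · rw [Polynomial.eval_add, Polynomial.eval_mul, Polynomial.eval_X, Polynomial.eval_C,
          Polynomial.eval_C, ← mul_pow]
        congr 1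
        field_simp
      · rw [Polynomial.eval_C, pow_zero, one_mul]
    rw [h2]
    have h3 : (algebraMap ℂ F ε) ^ e = (algebraMap ℂ F ε) ^ (e - wt V s) *
        (algebraMap ℂ F ε) ^ wt V s := by
      rw [← pow_add, Nat.sub_add_cancel (he s hs)]
    rw [h3]
    ring
  rw [h1]
  exact W.smul_mem _ (h ε hε)

theorem top_C_mul {q : MvPolynomial σ F} {u : F} (hu : u ≠ 0) (e : ℕ) (c : σ → F) :
    (MvPolynomial.C u * q).support = q.support ∧
      top V (MvPolynomial.C u * q) e c = u * top V q e c := by
  have h1 : (MvPolynomial.C u * q).support = q.support := by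
    ext s
    rw [MvPolynomial.mem_support_iff, MvPolynomial.mem_support_iff, MvPolynomial.coeff_C_mul]
    constructor
    · exact fun h h0 => h (by rw [h0, mul_zero])
    · exact fun h => mul_ne_zero hu h
  refine ⟨h1, ?_⟩
  unfold top
  rw [h1, Finset.mul_sum]
  refine Finset.sum_congr rfl fun s _ => ?_
  rw [MvPolynomial.coeff_C_mul, mul_assoc]

theorem exists_top {q : MvPolynomial σ F} (hq : q ≠ 0) : ∃ e : ℕ,
    (∀ s ∈ q.support, wt V s ≤ e) ∧ ∃ c : σ → ℂ, top V q e (fun i => algebraMap ℂ F (c i)) ≠ 0 := by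
  classical
  have hne : q.support.Nonempty := MvPolynomial.support_nonempty.2 hq
  obtain ⟨s0, hs0, hmax⟩ := Finset.exists_max_image q.support (wt V) hne
  refine ⟨wt V s0, hmax, ?_⟩
  by_contra hcon
  push Not at hcon
  obtain ⟨p, hp⟩ : ∃ p : MvPolynomial σ F, p =
    ∑ s ∈ q.support with wt V s = wt V s0, MvPolynomial.monomial s (q.coeff s) := ⟨_, rfl⟩
  have h1 : p.coeff s0 ∈ (⊥ : Submodule ℂ F) := by
    refine coeff_mem ⊥ p (fun c => ?_) s0
    rw [Submodule.mem_bot, ← hcon c, hp, map_sum]
    unfold top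
    refine Finset.sum_congr rfl fun s _ => ?_
    rw [MvPolynomial.eval_monomial, Finsupp.prod_fintype _ _ (fun i => pow_zero _)]
  rw [Submodule.mem_bot, hp, MvPolynomial.coeff_sum] at h1
  simp only [MvPolynomial.coeff_monomial] at h1
  have h2 : s0 ∈ q.support.filter (fun s => wt V s = wt V s0) :=
    Finset.mem_filter.2 ⟨hs0, rfl⟩
  rw [Finset.sum_ite_eq', if_pos h2] at h1
  exact (MvPolynomial.mem_support_iff.1 hs0) h1

end

end Pool.Agent.U393.SA
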