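import Pool.Agent.U393.SA.Val
import Pool.Agent.U393.SA.Top
import Pool.Agent.Y174.V5

/-!
Frames of vector fields of a family.
-/

set_option autoImplicit false
set_option linter.overlappingInstances false
set_option linter.unusedSectionVars false

open FF Pool.Agent.W602.GT Pool.Agent.W603.LV Pool.Agent.W619.PQ Pool.Agent.Y172

namespace Pool.Agent.U393.SA

section

variable {M R L : Type} [Field M] [Field R] [Field L] [Algebra ℂ M] [Algebra ℂ R] [Algebra M R]
  [IsScalarTower ℂ M R] [Algebra ℂ L] [Algebra R L] [IsScalarTower ℂ R L]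

/-- the frame of a family: horizontal fields and the given vertical fields -/
noncomputable def frame {b r : ℕ} (B : Fin (b + (r + 1)) → Derivation ℂ R R)
    (D : Fin (r + 1) → Derivation M R R) : Fin (b + (r + 1)) → Derivation ℂ R R :=
  Fin.append (fun k => B (Fin.castAdd (r + 1) k)) fun j => (D j).restrictScalars ℂ

/-- the matrix of the vertical fields is invertible -/
theorem isUnit_vert {r : ℕ} {x : Fin (r + 1) → R} (hx : IsTranscendenceBasis M x)
    {D : Fin (r + 1) → Derivation M R R} (hD : LinearIndependent R D) [CharZero M] :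
    IsUnit (Matrix.of fun j i => D j (x i)) := by
  rw [← Matrix.linearIndependent_rows_iff_isUnit, Fintype.linearIndependent_iff]
  intro c hc
  refine Fintype.linearIndependent_iff.1 hD c ?_
  refine Derivation.ext fun f => ?_
  have h1 := Pool.Agent.W619.TW.der_zero (∑ j, c j • D j) x hx (fun i => ?_) f
  · exact h1
  · have h2 := congrFun hc i
    rw [Pool.Agent.W308.PG.YLOC.der_sum_apply]
    rw [Finset.sum_apply] at h2
    exact h2

/-- **The frame spans.** -/
theorem span_frame {b r : ℕ} {t : Fin b → M} (ht : IsTranscendenceBasis ℂ t)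
    {x : Fin (r + 1) → R} (hx : IsTranscendenceBasis M x)
    {B : Fin (b + (r + 1)) → Derivation ℂ R R}
    (hB : ∀ i j, B i (Fin.append (algebraMap M R ∘ t) x j) = if i = j then 1 else 0)
    {D : Fin (r + 1) → Derivation M R R} (hD : LinearIndependent R D)
    (G : Derivation ℂ R L) :
    ∃ c : Fin (b + (r + 1)) → L, (∀ f, G f = ∑ p, c p * algebraMap R L (frame B D p f)) ∧
      ∀ k, c (Fin.castAdd (r + 1) k) = G (algebraMap M R (t k)) := by
  classical
  have hM0 : CharZero M := charZero_of_injective_algebraMap (algebraMap ℂ M).injective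
  have hxt := Pool.Agent.Y174.basis_append ht hx
  obtain ⟨A, hA⟩ : ∃ A : Matrix (Fin (r + 1)) (Fin (r + 1)) R, A = Matrix.of fun j i => D j (x i) :=
    ⟨_, rfl⟩
  have hAu : IsUnit A := by
    rw [hA]
    exact isUnit_vert hx hD
  have hAu' : IsUnit ((algebraMap R L).mapMatrix A) := hAu.map _
  obtain ⟨v, hv⟩ : ∃ v : Fin (r + 1) → L, v = fun i => G (x i) := ⟨_, rfl⟩
  obtain ⟨c', hc'⟩ : ∃ c' : Fin (r + 1) → L, c' =
    Matrix.vecMul v ((algebraMap R L).mapMatrix A)⁻¹ := ⟨_, rfl⟩
  have hc'' : Matrix.vecMul c' ((algebraMap R L).mapMatrix A) = v := by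
    rw [hc', Matrix.vecMul_vecMul, Matrix.nonsing_inv_mul _
      ((Matrix.isUnit_iff_isUnit_det _).1 hAu'), Matrix.vecMul_one]
  obtain ⟨c, hc⟩ : ∃ c : Fin (b + (r + 1)) → L, c =
    Fin.append (fun k => G (algebraMap M R (t k))) c' := ⟨_, rfl⟩
  refine ⟨c, fun f => ?_, fun k => by rw [hc, Fin.append_left]⟩
  have h1 := Pool.Agent.W619.TW.der_zero (G -
    ∑ p, (c p) • ((Algebra.linearMap R L).compDer (frame B D p))) _ hxt (fun i => ?_) f
  · rw [Derivation.sub_apply, Pool.Agent.W308.PG.YLOC.der_sum_apply, sub_eq_zero] at h1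
    exact h1
  · rw [Derivation.sub_apply, Pool.Agent.W308.PG.YLOC.der_sum_apply, sub_eq_zero]
    change G (Fin.append (algebraMap M R ∘ t) x i) =
      ∑ p, c p * algebraMap R L (frame B D p (Fin.append (algebraMap M R ∘ t) x i))
    rw [Fin.sum_univ_add]
    have e1 : ∀ k f, frame B D (Fin.castAdd (r + 1) k) f = B (Fin.castAdd (r + 1) k) f := by
      intro k f
      unfold frame
      rw [Fin.append_left]
    have e2 : ∀ j f, frame B D (Fin.natAdd b j) f = D j f := by
      intro j f
      unfold frame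
      rw [Fin.append_right]
      rfl
    simp only [e1, e2, hB]
    refine Fin.addCases (fun l => ?_) (fun l => ?_) i
    · rw [Fin.append_left]
      have h2 : ∑ j : Fin (r + 1), c (Fin.natAdd b j) *
          algebraMap R L (D j ((algebraMap M R ∘ t) l)) = 0 := by
        refine Finset.sum_eq_zero fun j _ => ?_
        rw [Function.comp_apply, Derivation.map_algebraMap, map_zero, mul_zero]
      rw [h2, add_zero, Finset.sum_eq_single l]
      · rw [if_pos rfl, map_one, mul_one, hc, Fin.append_left]
        rfl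
      · intro k _ hk
        rw [if_neg fun h => hk (Fin.castAdd_injective b (r + 1) h), map_zero, mul_zero]
      · intro h
        exact absurd (Finset.mem_univ _) h
    · rw [Fin.append_right]
      have h2 : ∑ k : Fin b, c (Fin.castAdd (r + 1) k) *
          algebraMap R L (if Fin.castAdd (r + 1) k = Fin.natAdd b l then 1 else 0) = 0 := by
        refine Finset.sum_eq_zero fun k _ => ?_
        rw [if_neg, map_zero, mul_zero]
        intro h
        have := congrArg Fin.val h
        rw [Fin.val_castAdd, Fin.val_natAdd] at this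
        omega
      rw [h2, zero_add]
      have h3 := congrFun hc'' l
      rw [hv] at h3
      change _ = G (x l) at h3
      rw [← h3]
      unfold Matrix.vecMul dotProduct
      refine Finset.sum_congr rfl fun j _ => ?_
      rw [hc, Fin.append_right, hA]
      rfl

end

section

variable (K : Type) {Ω Ω' : Type} [Field K] [Field Ω] [Field Ω'] [Algebra ℂ K] [Algebra ℂ Ω]
  [Algebra ℂ Ω'] [Algebra K Ω] [Algebra Ω Ω'] [IsScalarTower ℂ K Ω] [IsScalarTower ℂ Ω Ω']
  [Fintype (Ω ≃ₐ[K] Ω)]

/-- the norm is not zero in a frame which spans -/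
theorem FV_ne {N d m : ℕ} {x : Fin d → Ω} (hx : AlgebraicIndependent ℂ x) {a : Ω} (ha : a ≠ 0)
    {B : Fin N → Derivation ℂ Ω' Ω'}
    (hB : ∀ G : Derivation ℂ Ω' Ω', ∃ c : Fin N → Ω', ∀ z, G z = ∑ j, c j * B j z) :
    FV K x a m B ≠ 0 := by
  classical
  intro h0
  unfold FV at h0
  rw [Finset.prod_eq_zero_iff] at h0
  obtain ⟨h, -, h0⟩ := h0
  have h1 : (MvPolynomial.C (algebraMap Ω Ω' (h a)) : MvPolynomial (Fin d × Fin N) Ω') ≠ 0 := by
    rw [Ne, MvPolynomial.C_eq_zero, map_eq_zero, EmbeddingLike.map_eq_zero_iff]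
    exact ha
  have h2 := eq_zero_of_pow_eq_zero ((mul_eq_zero.1 h0).resolve_right h1)
  have hhx : AlgebraicIndependent ℂ (fun l => h (x l)) :=
    hx.map' (f := (h.restrictScalars ℂ).toAlgHom) h.injective
  have hhx' : AlgebraicIndependent ℂ (fun l => algebraMap Ω Ω' (h (x l))) :=
    hhx.map' (f := IsScalarTower.toAlgHom ℂ Ω Ω') (algebraMap Ω Ω').injective
  obtain ⟨Dy, hDy⟩ := Pool.Agent.TH466.QT.exists_dual_of_indep hhx'
  choose c hc using fun i => hB (Dy i)
  have h3 := congrArg (MvPolynomial.eval fun ij : Fin d × Fin N => c ij.1 ij.2) h2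
  rw [map_zero, RingHom.map_det] at h3
  have h4 : (MvPolynomial.eval fun ij : Fin d × Fin N => c ij.1 ij.2).mapMatrix
      (Matrix.of fun i l => ∑ j, MvPolynomial.X (i, j) *
        MvPolynomial.C (B j (algebraMap Ω Ω' (h (x l))))) =
      (1 : Matrix (Fin d) (Fin d) Ω') := by
    ext i l
    rw [RingHom.mapMatrix_apply, Matrix.map_apply, Matrix.of_apply, map_sum, Matrix.one_apply]
    have h6 := hc i (algebraMap Ω Ω' (h (x l)))
    rw [hDy] at h6
    have h7 : (if i = l then (1 : Ω') else 0) = if l = i then 1 else 0 := by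
      by_cases hil : i = l
      · rw [if_pos hil, if_pos hil.symm]
      · rw [if_neg hil, if_neg (Ne.symm hil)]
    rw [h7, h6]
    refine Finset.sum_congr rfl fun j _ => ?_
    rw [map_mul, MvPolynomial.eval_X, MvPolynomial.eval_C]
  rw [h4, Matrix.det_one] at h3
  exact one_ne_zero h3

end

end Pool.Agent.U393.SA
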