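import Pool.Agent.U393.SA.Lift

/-!
Varieties which are swept out by almost homogeneous varieties.
-/

set_option autoImplicit false
set_option linter.overlappingInstances false
set_option linter.unusedSectionVars false

open FF Pool.Agent.W602.GT Pool.Agent.W603.LV Pool.Agent.W619.PQ Pool.Agent.Y172
open Pool.Agent.U192.NM (dg Lv pol exists_basis_pol)
open Pool.Agent.U192.PB (up)

namespace Pool.Agent.U393.SA

variable {C : ∀ (M R : Type) [Field M] [Field R] [Algebra M R], ℕ → Prop}

/-- generic finiteness after a base change -/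
theorem fin_up {M R M' R' : Type} [Field M] [Field R] [Algebra M R] [Field M'] [Field R']
    [Algebra M M'] [Algebra M' R'] [Algebra R R'] [Algebra M R'] [IsScalarTower M M' R']
    [IsScalarTower M R R'] {S : Set R} {S' : Set R'}
    (h : Algebra.IsAlgebraic (IntermediateField.adjoin M S) R)
    (hgen : IntermediateField.adjoin M' (Set.range (algebraMap R R')) = ⊤)
    (hS : ∀ s ∈ S, algebraMap R R' s ∈ S') :
    Algebra.IsAlgebraic (IntermediateField.adjoin M' S') R' := by
  have h3 : ∀ z ∈ IntermediateField.adjoin M S, algebraMap R R' z ∈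
      IntermediateField.adjoin M' S' := by
    have h4 : IntermediateField.adjoin M S ≤
        ((IntermediateField.adjoin M' S').restrictScalars M).comap
          (IsScalarTower.toAlgHom M R R') := by
      rw [IntermediateField.adjoin_le_iff]
      intro s hs
      exact IntermediateField.subset_adjoin M' _ (hS s hs)
    exact h4
  have h1 : (⊤ : IntermediateField M' R') ≤ (algebraicClosure (IntermediateField.adjoin M'
      S') R').restrictScalars M' := by
    rw [← hgen, IntermediateField.adjoin_le_iff]
    rintro _ ⟨w, rfl⟩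
    change algebraMap R R' w ∈ algebraicClosure _ R'
    rw [mem_algebraicClosure_iff]
    let g : IntermediateField.adjoin M S →+* IntermediateField.adjoin M' S' :=
      ((algebraMap R R').comp (algebraMap _ R)).codRestrict
        (IntermediateField.adjoin M' S').toSubfield fun z => h3 z z.2
    refine (h.isAlgebraic w).ringHom_of_comp_eq g (algebraMap R R') g.injective ?_
    ext z
    rfl
  exact ⟨fun z => mem_algebraicClosure_iff.1
    (h1 (trivial : z ∈ (⊤ : IntermediateField M' R')))⟩

theorem exists_trdeg {k M : Type} [Field k] [Field M] [Algebra k M] [Algebra.EssFiniteType k M] :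
    ∃ b : ℕ, Algebra.trdeg k M = b := Cardinal.lt_aleph0.1 (trdeg_lt_aleph0 k M)

section

variable {L : Type} [Field L] [Algebra ℂ L] [Algebra.EssFiniteType ℂ L]

/-- **The families on `W` lift to families in the fibres of `V` over `X`.** -/
theorem sweep_lift (U : IntermediateField ℂ L) {d n m κ : ℕ} (hU : Algebra.trdeg ℂ U = d)
    (X : Fin κ → Finset U) (hX : IntermediateField.adjoin ℂ (⋃ i, (X i : Set U)) = ⊤)
    {K : Type} [Field K] [Algebra ℂ K] [Algebra K L] [IsScalarTower ℂ K L]
    [FiniteDimensional K L] (hn : Algebra.trdeg ℂ K = n)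
    (hinj : IntermediateField.adjoin K (U : Set L) = ⊤)
    {α : Fin (d + 1) → (Fin d → Derivation ℂ U U) → U} (hα : ∀ j, IsPluri m (α j))
    (hpos : ∀ j, ∀ v : Place ℂ U, Divisorial d v → ∀ G : Fin d → Derivation ℂ U U,
      (∀ i, DerReg v (G i)) → α j G = 0 ∨
      ∑ i, 2 * (m : ℤ) * ((dg K (up U X) i : ℤ) - 1) * pol (X i) v ≤ v.ord (α j G))
    {G0 : Fin d → Derivation ℂ U U} (hG0 : α 0 G0 ≠ 0)
    (hind : AlgebraicIndependent ℂ fun j : Fin d => α j.succ G0 / α 0 G0)
    (hC : IsClass C) (h : SweptOut C (⊥ : IntermediateField ℂ K)) : SweptOut C U := by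
  obtain ⟨M, R, iM, iR, iCM, iCR, iMR, r, φ, hs⟩ := h
  have t0 := hs.tower
  have hMe := hs.fgM
  have hRe := hs.fgR
  obtain ⟨b, hb⟩ := exists_trdeg (k := ℂ) (M := M)
  let iK : Algebra K R := φ.toRingHom.toAlgebra
  have t1 : IsScalarTower ℂ K R := IsScalarTower.of_algebraMap_eq fun c => (φ.commutes c).symm
  obtain ⟨S, D, hD⟩ := hC.homog M R r hs.mem
  obtain ⟨R', i1, i2, i3, t2, hfd, φ', M', hfdM, hgen, hφ, hφU⟩ := lift U hU X hX hn hinj hα hpos
    hG0 hind hb hs.dim hD
  let iCR' : Algebra ℂ R' := ((algebraMap R R').comp (algebraMap ℂ R)).toAlgebra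
  have t3 : IsScalarTower ℂ R R' := IsScalarTower.of_algebraMap_eq fun _ => rfl
  have t4 : IsScalarTower ℂ M R' := IsScalarTower.of_algebraMap_eq fun c => by
    rw [IsScalarTower.algebraMap_apply M R R', ← IsScalarTower.algebraMap_apply ℂ M R,
      ← IsScalarTower.algebraMap_apply ℂ R R']
  let iCM' : Algebra ℂ M' := ((algebraMap M M').comp (algebraMap ℂ M)).toAlgebra
  have t5 : IsScalarTower ℂ M M' := IsScalarTower.of_algebraMap_eq fun _ => rfl
  have t6 : IsScalarTower ℂ M' R' := IsScalarTower.of_algebraMap_eq fun c => by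
    change algebraMap ℂ R' c = algebraMap M' R' (algebraMap M M' (algebraMap ℂ M c))
    rw [← IsScalarTower.algebraMap_apply M M' R', ← IsScalarTower.algebraMap_apply ℂ M R']
  let ψ : L →ₐ[ℂ] R' := { φ' with
    commutes' := fun c => by
      change φ' (algebraMap ℂ L c) = algebraMap ℂ R' c
      rw [IsScalarTower.algebraMap_apply ℂ K L, hφ, ← IsScalarTower.algebraMap_apply ℂ K R,
        ← IsScalarTower.algebraMap_apply ℂ R R'] }
  have hgen' : IntermediateField.adjoin M' (Set.range (algebraMap R R')) = ⊤ := by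
    rw [eq_top_iff]
    intro z _
    have h1 : z ∈ IntermediateField.adjoin R (M' : Set R') := by
      rw [hgen]
      trivial
    have h2 : (IntermediateField.adjoin R (M' : Set R')).toSubfield ≤
        (IntermediateField.adjoin M' (Set.range (algebraMap R R'))).toSubfield := by
      change Subfield.closure _ ≤ _
      rw [Subfield.closure_le]
      rintro z (⟨c, rfl⟩ | hz)
      · exact IntermediateField.subset_adjoin M' _ ⟨c, rfl⟩
      · exact (IntermediateField.adjoin M' (Set.range (algebraMap R R'))).algebraMap_mem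
          (⟨z, hz⟩ : M')
    exact h2 h1
  have halgM : Algebra.IsAlgebraic M M' := inferInstance
  have hdim : Algebra.trdeg M' R' = (r + 1 : ℕ) := by
    have e1 := _root_.trdeg_add_eq M M' (A := R')
    have e2 := _root_.trdeg_add_eq M R (A := R')
    have e3 : Algebra.trdeg M M' = 0 := trdeg_eq_zero_iff.2 halgM
    have e4 : Algebra.trdeg R R' = 0 := trdeg_eq_zero_iff.2 inferInstance
    rw [e3, zero_add] at e1
    rw [e4, add_zero, hs.dim] at e2
    rw [e1, ← e2]
  refine ⟨M', R', inferInstance, inferInstance, iCM', iCR', inferInstance, r, ψ, t6, ?_, ?_, hdim,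
    hC.base M R r hs.mem M' R' hgen' hdim, fun u hu => ⟨⟨φ' u, hφU u hu⟩, rfl⟩,
    fin_up hs.finite hgen' ?_⟩
  · exact Algebra.EssFiniteType.comp ℂ M M'
  · exact Algebra.EssFiniteType.comp ℂ R R'
  · rintro _ ⟨z, rfl⟩
    exact ⟨algebraMap K L z, hφ z⟩

end

/-- the trivial direction -/
theorem sweep_down {L : Type} [Field L] [Algebra ℂ L] (U : IntermediateField ℂ L) {K : Type}
    [Field K] [Algebra ℂ K] [Algebra K L] [IsScalarTower ℂ K L] [FiniteDimensional K L]
    (h : SweptOut C U) : SweptOut C (⊥ : IntermediateField ℂ K) := by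
  obtain ⟨M, R, iM, iR, iCM, iCR, iMR, r, φ, hs⟩ := h
  have t0 := hs.tower
  refine ⟨M, R, iM, iR, iCM, iCR, iMR, r, φ.comp (IsScalarTower.toAlgHom ℂ K L), hs.tower,
    hs.fgM, hs.fgR, hs.dim, hs.mem, fun u hu => ?_, ?_⟩
  · rw [IntermediateField.mem_bot] at hu
    obtain ⟨c, rfl⟩ := hu
    refine ⟨algebraMap ℂ M c, ?_⟩
    rw [AlgHom.commutes, ← IsScalarTower.algebraMap_apply ℂ M R]
  · obtain ⟨F, hF⟩ : ∃ F : IntermediateField M R, F = IntermediateField.adjoin M
      (Set.range (φ.comp (IsScalarTower.toAlgHom ℂ K L))) := ⟨_, rfl⟩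
    rw [← hF]
    have h1 : ∀ z : L, φ z ∈ algebraicClosure F R := by
      intro z
      rw [mem_algebraicClosure_iff]
      have h1 : IsAlgebraic K z := Algebra.IsAlgebraic.isAlgebraic z
      let g : K →+* F := (φ.toRingHom.comp (algebraMap K L)).codRestrict F.toSubfield fun w => by
        rw [hF]
        exact IntermediateField.subset_adjoin M _ ⟨w, rfl⟩
      refine h1.ringHom_of_comp_eq g φ.toRingHom g.injective ?_
      ext w
      rfl
    have h2 : IntermediateField.adjoin M (Set.range φ) ≤
        (algebraicClosure F R).restrictScalars M := by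
      rw [IntermediateField.adjoin_le_iff]
      rintro _ ⟨z, rfl⟩
      exact h1 z
    refine ⟨fun w => ?_⟩
    have h3 : IsAlgebraic (algebraicClosure F R) w := by
      have h4 := hs.finite.isAlgebraic w
      let g : IntermediateField.adjoin M (Set.range φ) →+* algebraicClosure F R :=
        { toFun := fun z => ⟨z, h2 z.2⟩
          map_one' := rfl
          map_mul' := fun _ _ => rfl
          map_zero' := rfl
          map_add' := fun _ _ => rfl }
      refine h4.ringHom_of_comp_eq g (RingHom.id R) g.injective ?_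
      ext z
      rfl
    exact h3.restrictScalars F

end Pool.Agent.U393.SA
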