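import Pool.Agent.U192.TD.Main

/-!
The values of the norm of a form on the vector fields of a variety which dominates `W`.
-/

set_option autoImplicit false
set_option linter.overlappingInstances false
set_option linter.unusedSectionVars false

open FF Pool.Agent.W602.GT Pool.Agent.W603.LV Pool.Agent.W619.PQ Pool.Agent.Y172
open Pool.Agent.U192.TD (FP TT RegDown coeff_mem eval_FP comm_aut)

namespace Pool.Agent.U393.SA

section

variable (K : Type) {Ω Ω' : Type} [Field K] [Field Ω] [Field Ω'] [Algebra ℂ K] [Algebra ℂ Ω]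
  [Algebra ℂ Ω'] [Algebra K Ω] [Algebra Ω Ω'] [IsScalarTower ℂ K Ω] [IsScalarTower ℂ Ω Ω']
  [Fintype (Ω ≃ₐ[K] Ω)]

/-- the norm of the tensor `a (dx) ^ m` as a function of vector fields of a larger field -/
noncomputable def TV {d : ℕ} (x : Fin d → Ω) (a : Ω) (m : ℕ)
    (D : Fin d → Derivation ℂ Ω' Ω') : Ω' :=
  ∏ h : Ω ≃ₐ[K] Ω, ((Matrix.of fun i l => D i (algebraMap Ω Ω' (h (x l)))).det ^ m *
    algebraMap Ω Ω' (h a))

/-- the same in the coordinates given by a frame -/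
noncomputable def FV {d n : ℕ} (x : Fin d → Ω) (a : Ω) (m : ℕ)
    (B : Fin n → Derivation ℂ Ω' Ω') : MvPolynomial (Fin d × Fin n) Ω' :=
  ∏ h : Ω ≃ₐ[K] Ω, ((Matrix.of fun i l => ∑ j, MvPolynomial.X (i, j) *
    MvPolynomial.C (B j (algebraMap Ω Ω' (h (x l))))).det ^ m *
      MvPolynomial.C (algebraMap Ω Ω' (h a)))

theorem eval_FV {d n : ℕ} (x : Fin d → Ω) (a : Ω) (m : ℕ) (B : Fin n → Derivation ℂ Ω' Ω')
    (g : Fin d × Fin n → Ω') :
    MvPolynomial.eval g (FV K x a m B) = TV K x a m fun i => ∑ j, g (i, j) • B j := by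
  unfold FV TV
  rw [map_prod]
  refine Finset.prod_congr rfl fun h _ => ?_
  rw [map_mul, map_pow, MvPolynomial.eval_C, RingHom.map_det]
  congr 3
  ext i l
  rw [RingHom.mapMatrix_apply, Matrix.map_apply, Matrix.of_apply, Matrix.of_apply, map_sum,
    Pool.Agent.W308.PG.YLOC.der_sum_apply]
  refine Finset.sum_congr rfl fun j _ => ?_
  rw [map_mul, MvPolynomial.eval_X, MvPolynomial.eval_C]
  rfl

/-- the values in terms of a frame from below -/
theorem eval_low {d n : ℕ} {x : Fin d → Ω} {a : Ω} {m : ℕ} {y : Fin n → Ω}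
    {EΩ : Fin n → Derivation ℂ Ω Ω} (hy : IsTranscendenceBasis ℂ y)
    (hdual : ∀ i j, EΩ i (y j) = if i = j then 1 else 0)
    (G : Fin d → Derivation ℂ Ω' Ω') :
    MvPolynomial.eval₂ (algebraMap Ω Ω') (fun ij => G ij.1 (algebraMap Ω Ω' (y ij.2)))
      (FP K x a m EΩ) = TV K x a m G := by
  unfold FP TV
  rw [← MvPolynomial.coe_eval₂Hom, map_prod]
  refine Finset.prod_congr rfl fun h _ => ?_
  rw [map_mul, map_pow, RingHom.map_det, MvPolynomial.coe_eval₂Hom, MvPolynomial.eval₂_C]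
  congr 3
  ext i l
  rw [RingHom.mapMatrix_apply, Matrix.map_apply, Matrix.of_apply, Matrix.of_apply, map_sum,
    Pool.Agent.W308.PG.YLOC.expand (k := ℂ) (K := Ω) (L := Ω') y EΩ hy hdual (G i) (h (x l))]
  refine Finset.sum_congr rfl fun j _ => ?_
  rw [map_mul, MvPolynomial.coe_eval₂Hom, MvPolynomial.eval₂_X, MvPolynomial.eval₂_C, mul_comm]

/-- the coefficients are functions downstairs -/
theorem coeff_low [FiniteDimensional K Ω] [IsGalois K Ω] {d n m : ℕ}
    (hn : Algebra.trdeg ℂ K = n) (x : Fin d → Ω) (a : Ω)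
    {E : Fin n → Derivation ℂ K K} {EΩ : Fin n → Derivation ℂ Ω Ω}
    (hEΩ : ∀ i z, EΩ i (algebraMap K Ω z) = algebraMap K Ω (E i z)) (t : Fin d × Fin n →₀ ℕ) :
    ∃ w : K, algebraMap K Ω w = (FP K x a m EΩ).coeff t := by
  classical
  have key : ∀ σ : Ω ≃ₐ[K] Ω, MvPolynomial.map (σ : Ω →+* Ω) (FP K x a m EΩ) =
      FP K x a m EΩ := by
    intro σ
    unfold FP
    rw [map_prod]
    refine Fintype.prod_equiv (Equiv.mulLeft σ) _ _ fun h => ?_
    rw [map_mul, map_pow, RingHom.map_det, MvPolynomial.map_C]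
    congr 3
    ext i l
    rw [RingHom.mapMatrix_apply, Matrix.map_apply, Matrix.of_apply, Matrix.of_apply, map_sum]
    congr 1
    refine Finset.sum_congr rfl fun j _ => ?_
    rw [map_mul, MvPolynomial.map_X, MvPolynomial.map_C]
    congr 2
    exact (comm_aut hn (hEΩ j) σ (h (x l))).symm
  have h1 : (FP K x a m EΩ).coeff t ∈ Set.range (algebraMap K Ω) := by
    rw [IsGalois.mem_range_algebraMap_iff_fixed]
    intro σ
    have h2 := congrArg (MvPolynomial.coeff t) (key σ)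
    rw [MvPolynomial.coeff_map] at h2
    exact h2
  exact h1

end

section

variable {K R Ω Ω' : Type} [Field K] [Field R] [Field Ω] [Field Ω'] [Algebra ℂ K] [Algebra ℂ R]
  [Algebra ℂ Ω] [Algebra ℂ Ω'] [Algebra K Ω] [Algebra K R] [Algebra K Ω'] [Algebra Ω Ω']
  [Algebra R Ω']
  [IsScalarTower ℂ K Ω] [IsScalarTower ℂ K R] [IsScalarTower ℂ Ω Ω'] [IsScalarTower ℂ R Ω']
  [IsScalarTower K Ω Ω'] [IsScalarTower K R Ω'] [FiniteDimensional K Ω] [IsGalois K Ω]
  [Fintype (Ω ≃ₐ[K] Ω)] [Algebra.EssFiniteType ℂ K]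

/-- the functions upstairs which are regular at a place of `R` -/
def RV (Ω' : Type) [Field Ω'] [Algebra ℂ Ω'] [Algebra R Ω'] [IsScalarTower ℂ R Ω']
    (Q : Place ℂ R) : Subalgebra ℂ Ω' where
  carrier := {v | ∃ w : R, Ge Q 0 w ∧ algebraMap R Ω' w = v}
  mul_mem' := by
    rintro _ _ ⟨w, hw, rfl⟩ ⟨w', hw', rfl⟩
    refine ⟨w * w', ?_, map_mul _ _ _⟩
    have h1 := hw.mul hw'
    rwa [zero_add] at h1
  add_mem' := by
    rintro _ _ ⟨w, hw, rfl⟩ ⟨w', hw', rfl⟩
    exact ⟨w + w', hw.add hw', map_add _ _ _⟩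
  algebraMap_mem' := fun c => ⟨algebraMap ℂ R c, Ge.const c, by
    rw [← IsScalarTower.algebraMap_apply ℂ R Ω']⟩

/-- **The norm of the pull-back of a form is regular upstairs.** -/
theorem reg_V {n N d m : ℕ} (hn : Algebra.trdeg ℂ K = n) (hN : Algebra.trdeg ℂ R = N)
    {x : Fin d → Ω} {a : Ω} {s : K}
    (hs : RegDown K n x a m s) {Q : Place ℂ R} (hQ : Divisorial N Q)
    {G : Fin d → Derivation ℂ R R} (hG : ∀ i, DerReg Q (G i))
    {GΩ : Fin d → Derivation ℂ Ω' Ω'}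
    (hGΩ : ∀ i z, GΩ i (algebraMap R Ω' z) = algebraMap R Ω' (G i z)) :
    algebraMap K Ω' s * TV K x a m GΩ ∈ RV Ω' Q := by
  classical
  by_cases hcon : ∀ z : K, Q.ord (algebraMap K R z) = 0
  · obtain ⟨y, hy⟩ := Pool.Agent.W636.PG.exists_basis ℂ K n hn
    obtain ⟨E, hE⟩ := Pool.Agent.W636.PG.exists_duals ℂ K n y hy
    choose EΩ hEΩ using fun i => exists_lift (L := Ω) hn (E i)
    have hyΩ : IsTranscendenceBasis ℂ (fun j => algebraMap K Ω (y j)) := hy.algebraMap_comp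
    have hdual := lift_dual hE hEΩ
    have hreg : ∀ z : K, algebraMap K Ω' z ∈ RV Ω' Q := fun z =>
      ⟨algebraMap K R z, Or.inr (hcon z).ge, (IsScalarTower.algebraMap_apply K R Ω' z).symm⟩
    rw [← eval_low K hyΩ hdual GΩ]
    refine (RV Ω' Q).mul_mem (hreg s) (MvPolynomial.eval₂_mem (fun t _ => ?_) fun ij => ?_)
    · obtain ⟨w, hw⟩ := coeff_low (m := m) K hn x a hEΩ t
      rw [← hw, ← IsScalarTower.algebraMap_apply K Ω Ω']
      exact hreg w
    · refine ⟨G ij.1 (algebraMap K R (y ij.2)), hG _ _ (Or.inr (hcon _).ge), ?_⟩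
      rw [← hGΩ, ← IsScalarTower.algebraMap_apply K R Ω', ← IsScalarTower.algebraMap_apply K Ω Ω']
  · push Not at hcon
    obtain ⟨z, hz0⟩ := hcon
    obtain ⟨e, P, hP⟩ := exists_over (K := K) Q ⟨z, hz0⟩
    have hPd : Divisorial n P := Pool.Agent.W619.Y.pDIVR.{0, 0} ℂ K R n N P Q e hn hN hP hQ
    obtain ⟨y, E, i0, hl⟩ := exists_loc hn hPd
    choose EΩ hEΩ using fun i => exists_lift (L := Ω) hn (E i)
    have hyΩ : IsTranscendenceBasis ℂ (fun j => algebraMap K Ω (y j)) := hl.bas.algebraMap_comp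
    have hdual := lift_dual hl.dual hEΩ
    obtain ⟨p, hp⟩ : ∃ p : MvPolynomial (Fin d × Fin n) Ω, p =
      MvPolynomial.C (algebraMap K Ω s) * FP K x a m EΩ := ⟨_, rfl⟩
    have hcoef : ∀ t, ∃ w : K, Ge P 0 w ∧ algebraMap K Ω w = p.coeff t := by
      intro t
      exact coeff_mem (Subalgebra.toSubmodule (RV (R := K) Ω P)) p (fun c => by
        obtain ⟨w, hw, hwv⟩ := hs P hPd y E i0 hl EΩ hEΩ (fun i j => c (i, j))
        refine ⟨w, hw, ?_⟩
        rw [hwv, hp, map_mul, MvPolynomial.eval_C, eval_FP]) t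
    have h1 : algebraMap K Ω' s * TV K x a m GΩ = MvPolynomial.eval₂ (algebraMap Ω Ω')
        (fun ij => GΩ ij.1 (algebraMap Ω Ω' (algebraMap K Ω (y ij.2)))) p := by
      rw [hp, MvPolynomial.eval₂_mul, MvPolynomial.eval₂_C, eval_low K hyΩ hdual GΩ,
        ← IsScalarTower.algebraMap_apply K Ω Ω']
    rw [h1]
    refine MvPolynomial.eval₂_mem (fun t _ => ?_) fun ij => ?_
    · obtain ⟨w, hw, hwt⟩ := hcoef t
      rw [← hwt]
      refine ⟨algebraMap K R w, hP.reg.2 hw, ?_⟩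
      rw [← IsScalarTower.algebraMap_apply K R Ω', ← IsScalarTower.algebraMap_apply K Ω Ω']
    · refine ⟨G ij.1 (algebraMap K R (y ij.2)), hG _ _ (hP.reg.2 (hl.reg _)), ?_⟩
      rw [← hGΩ, ← IsScalarTower.algebraMap_apply K R Ω', ← IsScalarTower.algebraMap_apply K Ω Ω']

end

end Pool.Agent.U393.SA
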